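import Pool.Agent.Y738.PE.Glob3
import Pool.Agent.TH235.PQ.Final

/-! # Local approximation by thermal PEPS: definitions and statements of the jobs (part A)

Notation of `Pool.Agent.Y738.PE` (`Site`, `Conf`, `BConf`, `nrm`, `Contr`, `expec`, `pepsN`, ...). -/

open scoped BigOperators ComplexConjugate Classical InnerProductSpace

noncomputable section

namespace Pool.Agent.N658.TP

open Pool.Agent.Y738.PE

/-- Hermitian matrices. -/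
def Herm {S : Type} (B : S → S → ℂ) : Prop := ∀ σ τ, B τ σ = conj (B σ τ)

/-- The sum of the expectations of `B` over all positions, the energy of `φ` for the Hamiltonian
`∑_u τ_u(B)` on the torus. -/
def enS {d m r : ℕ} [NeZero m] (φ : Conf d m → ℂ) (B : BConf d r → BConf d r → ℂ) : ℂ :=
  ∑ u : Site m, expec φ u B

/-- Every Hermitian contraction `B` has, on the `m × m` torus, a PEPS with bond index set `Fin f`
(arbitrary tensors) whose expectation averaged over all positions is at most `ρ B + η`. -/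
def Reach (d r m f : ℕ) [NeZero m] (ρ : (BConf d r → BConf d r → ℂ) → ℂ) (η : ℝ) : Prop :=
  ∀ B : BConf d r → BConf d r → ℂ, Herm B → Contr B →
    ∃ C : Site m → Tensor d f, nrm (pepsN C) = 1 ∧
      (enS (pepsN C) B).re ≤ ((ρ B).re + η) * (m : ℝ) ^ 2

/-- The number of types. -/
def nT (d r : ℕ) : ℕ := (d ^ (r * r)) ^ 2 + 1

/-! ## The pipeline -/

/-- P1. Duality and Carathéodory: if no direction separates `x` from `S` by more than `η`, then `x` is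
within `η' > η` of a convex combination of `dim + 1` points of `S`. -/
def StmHull : Prop := ∀ (ι : Type) [Fintype ι] (S : Set (EuclideanSpace ℝ ι)) (x : EuclideanSpace ℝ ι)
  (η η' : ℝ), S.Nonempty → 0 ≤ η → η < η' →
  (∀ b : EuclideanSpace ℝ ι, ‖b‖ = 1 → ∃ s ∈ S, ⟪b, s⟫_ℝ ≤ ⟪b, x⟫_ℝ + η) →
  ∃ (p : Fin (Fintype.card ι + 1) → ℝ) (s : Fin (Fintype.card ι + 1) → EuclideanSpace ℝ ι),
    (∀ i, 0 ≤ p i) ∧ ∑ i, p i = 1 ∧ (∀ i, s i ∈ S) ∧ ‖(∑ i, p i • s i) - x‖ ≤ η'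

/-- P2. From `Reach` to a mixture of PEPS with the right averaged expectations. -/
def StmMix : Prop := ∀ (d r : ℕ), 2 ≤ d → 0 < r → ∃ c : ℝ, 0 < c ∧
  ∀ (m f L : ℕ) [NeZero m] [NeZero L], r ≤ m → r ≤ L → ∀ (Ψ : Conf d L → ℂ), nrm Ψ = 1 →
  ∀ η : ℝ, 0 < η → Reach d r m f (fun B => expec Ψ 0 B) η →
  ∃ (p : Fin (nT d r) → ℝ) (C : Fin (nT d r) → Site m → Tensor d f),
    (∀ i, 0 ≤ p i) ∧ ∑ i, p i = 1 ∧ (∀ i, nrm (pepsN (C i)) = 1) ∧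
    ∀ B : BConf d r → BConf d r → ℂ, Contr B →
      ‖(∑ i, (p i : ℂ) * enS (pepsN (C i)) B) / ((m : ℂ) ^ 2) - expec Ψ 0 B‖ ≤ c * η

/-- The site lies in the first `m` columns and rows of the torus of side `m + 1`. -/
def inn {m : ℕ} (p : Site (m + 1)) : Prop := p.1.val < m ∧ p.2.val < m

/-- A site of the torus of side `m + 1` as a site of the torus of side `m`. -/
def red {m : ℕ} (p : Site (m + 1)) : Site m := (((p.1.val : ℕ) : ZMod m), ((p.2.val : ℕ) : ZMod m))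

/-- A site of the torus of side `m` as a site of the torus of side `m + 1`. -/
def lft {m : ℕ} (q : Site m) : Site (m + 1) :=
  (((q.1.val : ℕ) : ZMod (m + 1)), ((q.2.val : ℕ) : ZMod (m + 1)))

/-- The values on the extra sites: the site `(i, m)` carries `1`, all others `0`. -/
def code {m : ℕ} (i : ℕ) (p : Site (m + 1)) : ℕ := if p.1.val = i ∧ p.2.val = m then 1 else 0

/-- The vector on the torus of side `m + 1`: the superposition, with the coefficients `w i`, of the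
PEPS `C i` on the first `m` columns and rows, the extra sites carrying the code of `i`. -/
def mixV {d m K : ℕ} [NeZero m] {κ : Type} [Fintype κ] (w : Fin K → ℂ)
    (C : Fin K → Site m → Fin d → κ → κ → κ → κ → ℂ) (σ : Conf d (m + 1)) : ℂ :=
  ∑ i : Fin K, w i * (if ∀ p : Site (m + 1), ¬ inn p → (σ p : ℕ) = code (i : ℕ) p then
    pepsN (C i) (fun q : Site m => σ (lft q)) else 0)

/-- The weights for `mixV` (compare `wI`). -/
def uX {d m K : ℕ} {κ : Type} (w : Fin K → ℂ)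
    (C : Fin K → Site m → Fin d → κ → κ → κ → κ → ℂ) (y0 : κ × κ × κ × κ) (p : Site (m + 1))
    (s : Fin d) (yl y yd : Fin K × (κ × κ × κ × κ)) : ℂ :=
  (if (p.1 ≠ 0 → yl.1 = y.1) ∧ (p.2 ≠ 0 → yd.1 = y.1) then 1 else 0) *
  (if p = 0 then w y.1 else 1) *
  (if inn p then wI (C y.1) (red p) s yl.2 y.2 yd.2
    else if (s : ℕ) = code (y.1 : ℕ) p ∧ y.2 = y0 then 1 else 0)

/-- P3. The sum over the bond values gives `mixV`. -/
def StmMixSum : Prop := ∀ (d m K : ℕ) [NeZero m] (κ : Type) [Fintype κ] (w : Fin K → ℂ)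
  (C : Fin K → Site m → Fin d → κ → κ → κ → κ → ℂ) (y0 : κ × κ × κ × κ) (σ : Conf d (m + 1)),
  (∑ g : Site (m + 1) → Fin K × (κ × κ × κ × κ), ∏ p : Site (m + 1),
      uX w C y0 p (σ p) (g (p.1 - 1, p.2)) (g p) (g (p.1, p.2 - 1))) = mixV w C σ

/-- P4. Norm and expectations of `mixV`, cut open. -/
def StmMixExp : Prop := ∀ (d m K r : ℕ) [NeZero m] (κ : Type) [Fintype κ] (w : Fin K → ℂ)
  (C : Fin K → Site m → Fin d → κ → κ → κ → κ → ℂ), 2 ≤ d → K ≤ m → 0 < r →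
  nrm (fun σ : BConf d (m + 1) => mixV w C (glue σ)) = ∑ i, ‖w i‖ ^ 2 * nrm (pepsN (C i)) ∧
  ∀ (p : ℕ × ℕ) (_ : p.1 + r ≤ m ∧ p.2 + r ≤ m) (h' : p.1 + r ≤ m + 1 ∧ p.2 + r ≤ m + 1)
    (B : BConf d r → BConf d r → ℂ),
    expecBlock (fun σ : BConf d (m + 1) => mixV w C (glue σ)) p h' B =
      ∑ i, ((‖w i‖ ^ 2 : ℝ) : ℂ) * expec (pepsN (C i)) (((p.1 : ℕ) : ZMod m), ((p.2 : ℕ) : ZMod m)) B

/-- P5. Averaged version of `main_G`: in the superposition of all tilings all good positions of the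
block occur with (almost) the same weight. -/
def StmAvg : Prop := ∀ (d m M L r : ℕ) [NeZero L], 2 ≤ d → 0 < m → 0 < M → 0 < r →
  r + 2 * (m * M + 1) + 3 ≤ L → (m * M + 1) ^ 2 ≤ L →
  ∀ (Φ : BConf d m → ℂ), nrm Φ = 1 → ∀ (Pos : Finset (ℕ × ℕ))
  (hPos : ∀ p ∈ Pos, p.1 + r ≤ m ∧ p.2 + r ≤ m) (T : ℝ), 0 < T → T ≤ (m : ℝ) ^ 2 →
  (Pos.card : ℝ) ≤ T → ∀ (B : BConf d r → BConf d r → ℂ), Contr B →
    0 < nrm (tot m M Φ L) ∧
    ‖expec (tot m M Φ L) 0 B / (nrm (tot m M Φ L) : ℂ) -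
      (∑ p : {p // p ∈ Pos}, expecBlock Φ p.1 (hPos p.1 p.2) B) / (T : ℂ)‖ ≤
      2 * (1 - ((M * (M - 1) * Pos.card : ℕ) : ℝ) / (((m * M + 2) ^ 2 : ℕ) : ℝ))

/-- The bond dimension of the translation invariant tensor. -/
def bondH (d r m f : ℕ) (ε : ℝ) : ℕ :=
  (2 * ((m + 1) * ⌈24 / ε⌉₊ + 2)) ^ 2 * (nT d r * f ^ 4)

/-- P6. The pipeline. -/
def StmPipe : Prop := ∀ (d r : ℕ), 2 ≤ d → 0 < r → ∃ c : ℝ, 0 < c ∧
  ∀ ε : ℝ, 0 < ε → ε ≤ 1 → ∀ (m f L : ℕ) [NeZero m] [NeZero L], c / ε ≤ m → r ≤ L →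
  ∀ (Ψ : Conf d L → ℂ), nrm Ψ = 1 → ∀ η : ℝ, 0 < η → Reach d r m f (fun B => expec Ψ 0 B) η →
  ∃ A : Tensor d (bondH d r m f ε), ∀ (L' : ℕ) [NeZero L'],
    r + ((m + 1) * ⌈24 / ε⌉₊ + 3) ^ 2 ≤ L' → 0 < nrm (pepsX A L') ∧
    ∀ (B : BConf d r → BConf d r → ℂ), Contr B → ∀ v : Site L',
      ‖expec (pepsX A L') v B / (nrm (pepsX A L') : ℂ) - expec Ψ 0 B‖ ≤ ε + c * η

/-- P7. Comparison of energies: for a state with translation invariant expectations on a large torus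
there is a unit vector on the torus of side `2 n` whose energy is at most that of the state, up to
boundary terms. -/
def StmCmp : Prop := ∀ (d r n L : ℕ) [NeZero L] [NeZero (2 * n)], 0 < r → r ≤ n → 2 * n ≤ L →
  ∀ (Ψ : Conf d L → ℂ), nrm Ψ = 1 →
  (∀ (v : Site L) (B : BConf d r → BConf d r → ℂ), expec Ψ v B = expec Ψ 0 B) →
  ∃ φ : Conf d (2 * n) → ℂ, nrm φ = 1 ∧ ∀ B : BConf d r → BConf d r → ℂ, Contr B →
    ‖enS φ B - ((2 * n : ℕ) : ℂ) ^ 2 * expec Ψ 0 B‖ ≤ 12 * (r : ℝ) * n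

/-! ## The thermal PEPS -/

open Pool.Agent.TH235 in
open scoped Matrix.Norms.L2Operator in
/-- T1. The truncated expansion in relative Frobenius norm. -/
def StmFrob : Prop := ∀ (n : Type) [Fintype n] [DecidableEq n] [Nonempty n] (A : Matrix n n ℂ)
  (hA : A.IsHermitian) (κ : ℝ), (∀ j, 3 / 4 ≤ 1 - κ * hA.eigenvalues j) →
  ∀ (N : ℕ) (adj : Fin N → Fin N → Prop) (K : ℕ), (∀ b b', adj b b' → adj b' b) →
  (∀ b, ¬ adj b b) → 1 ≤ K → (∀ b, (Finset.univ.filter fun b' => adj b b').card ≤ K) →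
  ∀ (q r : ℕ) (y : Fin N → Matrix n n ℂ), 1 + ∑ b, y b = 1 - (κ : ℂ) • A →
  ∀ y0 : ℝ, 0 ≤ y0 → y0 ≤ 1 / 80 → (∀ b, ‖y b‖ ≤ y0) → N * y0 ≤ 1 / 4 →
  2 * PQ.tm q * (N * y0) ^ 2 ≤ 1 →
  N * Real.exp (100 * (K + 1) ^ 2 * (1 + PQ.tm q * y0) - r / (10 * K * (K + 1) ^ 2)) ≤ 1 →
  PP.fr2 (PQ.KA adj q y r - (1 - (κ : ℂ) • A) ^ PQ.tm q) ≤
    (6 * (N * Real.exp (100 * (K + 1) ^ 2 * (1 + PQ.tm q * y0) - r / (10 * K * (K + 1) ^ 2))) +
      4 * (PQ.tm q * (N * y0) ^ 2)) ^ 2 * ∑ j, (1 - κ * hA.eigenvalues j) ^ (2 * PQ.tm q)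

/-- T2. Entropy bound. -/
def StmEnt : Prop := ∀ (ι : Type) [Fintype ι] (μ lam w : ι → ℝ) (t : ℝ), 0 < t →
  (∀ j, 0 ≤ μ j) → (∀ j, 0 < w j) → (∀ j, w j ≤ Real.exp (-(t * lam j))) → 0 < ∑ j, μ j →
  ∑ j, μ j * w j * lam j ≤
    (∑ j, μ j * w j) * ((Real.log (∑ j, μ j) - Real.log (∑ j, μ j * w j)) / t)

open Pool.Agent.TH235 in
open scoped Matrix.Norms.L2Operator Matrix in
/-- T3. A column of an approximate power with small energy. -/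
def StmCol : Prop := ∀ (n : Type) [Fintype n] [DecidableEq n] [Nonempty n] (A : Matrix n n ℂ)
  (hA : A.IsHermitian) (κ E X B0 δ : ℝ) (M : ℕ) (K0 : Matrix n n ℂ),
  (∀ j, E ≤ hA.eigenvalues j) → (∀ j, 0 < 1 - κ * hA.eigenvalues j) → ‖A‖ ≤ B0 → |E| ≤ B0 →
  0 ≤ X → 0 ≤ δ → δ ≤ 1 / 2 →
  ∑ j, (1 - κ * hA.eigenvalues j) ^ (2 * M) * (hA.eigenvalues j - E) ≤
    X * ∑ j, (1 - κ * hA.eigenvalues j) ^ (2 * M) →
  PP.fr2 (K0 - (1 - (κ : ℂ) • A) ^ M) ≤ δ ^ 2 * ∑ j, (1 - κ * hA.eigenvalues j) ^ (2 * M) →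
  ∃ t : n, 0 < PP.normSq (fun s => K0 s t) ∧
    (PP.ip (fun s => K0 s t) (A *ᵥ fun s => K0 s t)).re ≤
      (E + 4 * X + 24 * B0 * δ) * PP.normSq (fun s => K0 s t)

open Pool.Agent.TH235 in
open scoped Matrix in
/-- T4. PEPS of small energy. -/
def StmLow : Prop := ∀ (d R' : ℕ) (J : ℝ), 2 ≤ d → ∃ C : ℝ, 0 < C ∧
  ∀ (L : ℕ) [NeZero L], 2 ≤ L → R' + 1 ≤ L → ∀ (β δ : ℝ), 1 ≤ β → 0 < δ → δ ≤ 1 →
  ∀ h : PP.BoxOp d (R' + 1), h.IsHermitian → PP.nJ h ≤ J →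
  ∃ (D : ℕ) (ψ : (PP.Site L → Fin d) → ℂ),
    (D : ℝ) ≤ Real.exp (C * (β + Real.log L + Real.log (1 / δ))) ∧ PP.IsPEPS D ψ ∧
    PP.normSq ψ = 1 ∧ ∀ Ψ : (PP.Site L → Fin d) → ℂ, PP.normSq Ψ = 1 →
      (PP.ip ψ (PP.ham h L *ᵥ ψ)).re ≤
        (PP.ip Ψ (PP.ham h L *ᵥ Ψ)).re + (L : ℝ) ^ 2 * (C / β + δ)

/-- T5. The same in the other notation, with a common bond index set. -/
def StmTherm : Prop := ∀ (d r : ℕ), 2 ≤ d → 0 < r → ∃ C : ℝ, 0 < C ∧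
  ∀ (m : ℕ) [NeZero m], 2 ≤ m → r ≤ m → ∀ (β δ : ℝ), 1 ≤ β → 0 < δ → δ ≤ 1 →
  ∃ f : ℕ, (f : ℝ) ≤ Real.exp (C * (β + Real.log m + Real.log (1 / δ))) ∧
  ∀ B : BConf d r → BConf d r → ℂ, Herm B → Contr B → ∃ Cc : Site m → Tensor d f,
    nrm (pepsN Cc) = 1 ∧ ∀ φ : Conf d m → ℂ, nrm φ = 1 →
      (enS (pepsN Cc) B).re ≤ (enS φ B).re + (m : ℝ) ^ 2 * (C / β + δ)

end Pool.Agent.N658.TP
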