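import Pool.Agent.N658.TP.Fin
import Pool.Agent.N26.TP.CmpB

/-! # Assembly of part A -/

open scoped BigOperators ComplexConjugate Classical

noncomputable section

namespace Pool.Agent.N658.TP.A2

open Pool.Agent.Y738.PE Pool.Agent.N658.TP

theorem cmpG (d r n L : ℕ) [NeZero L] [NeZero (2 * n)] (hr : 0 < r) (hrn : r ≤ n)
    (hnL : 2 * n ≤ L) (Ψ : Conf d L → ℂ) (hΨ : nrm Ψ = 1)
    (hTI : ∀ (r : ℕ) (v : Site L) (B : BConf d r → BConf d r → ℂ), expec Ψ v B = expec Ψ 0 B) :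
    ∃ φ : Conf d (2 * n) → ℂ, nrm φ = 1 ∧ ∀ B : BConf d r → BConf d r → ℂ, Contr B →
      ‖enS φ B - ((2 * n : ℕ) : ℂ) ^ 2 * expec Ψ 0 B‖ ≤ 12 * (r : ℝ) * n := by
  obtain ⟨φ, h1, h2, -⟩ := Pool.Agent.N26.TP.cmp_gen d r n (2 * n) L rfl hr hrn hnL Ψ hΨ hTI
  exact ⟨φ, h1, h2⟩

theorem reachA (hT : StmTherm) (d r : ℕ) (hd : 2 ≤ d) (hr : 0 < r) :
    ∃ C : ℝ, 1 ≤ C ∧ ∀ (n L : ℕ) [NeZero L] [NeZero (2 * n)], 2 * n ≤ L →
      ∀ Ψ : Conf d L → ℂ, nrm Ψ = 1 →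
      (∀ (r : ℕ) (v : Site L) (B : BConf d r → BConf d r → ℂ), expec Ψ v B = expec Ψ 0 B) →
      ∀ ε : ℝ, 0 < ε → ε ≤ 1 → C / ε ≤ ((2 * n : ℕ) : ℝ) →
      ∃ f : ℕ, (f : ℝ) ≤ Real.exp (C * (1 / ε + Real.log ((2 * n : ℕ) : ℝ))) ∧
        Reach d r (2 * n) f (fun B => expec Ψ 0 B) ε := by
  obtain ⟨C₁, hC₁, hTh⟩ := hT d r hd hr
  refine ⟨18 * r + 3 * C₁ * (C₁ + 1) + 3 * C₁ + C₁ + 1, by
    have : (0 : ℝ) ≤ r := Nat.cast_nonneg r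
    nlinarith, ?_⟩
  intro n L _ _ hnL Ψ hΨ hTI ε hε hε1 hm
  obtain ⟨m, hmdef⟩ : ∃ m : ℕ, m = 2 * n := ⟨_, rfl⟩
  have hr1 : (1 : ℝ) ≤ r := by exact_mod_cast hr
  rw [div_le_iff₀ hε] at hm
  have hmm : ((2 * n : ℕ) : ℝ) = 2 * (n : ℝ) := by push_cast; ring
  have hn0 : (0 : ℝ) ≤ n := Nat.cast_nonneg n
  have h18 : 18 * (r : ℝ) ≤ ((2 * n : ℕ) : ℝ) * ε := by nlinarith
  have hmr : 18 * (r : ℝ) ≤ 2 * (n : ℝ) := by
    rw [hmm] at h18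
    nlinarith
  have hrn : r ≤ n := by
    have : (r : ℝ) ≤ n := by linarith
    exact_mod_cast this
  have hn1 : 1 ≤ n := by omega
  obtain ⟨φ, hφ, hφ2⟩ := cmpG d r n L hr hrn hnL Ψ hΨ hTI
  have hβ : 1 ≤ 3 * (C₁ + 1) / ε := by
    rw [le_div_iff₀ hε]; nlinarith
  obtain ⟨f, hf, hF⟩ := hTh (2 * n) (by omega) (by omega) (3 * (C₁ + 1) / ε) (ε / 3) hβ
    (by linarith) (by linarith)
  refine ⟨f, hf.trans (Real.exp_le_exp.2 ?_), ?_⟩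
  · have hlog : 0 ≤ Real.log ((2 * n : ℕ) : ℝ) := by
      refine Real.log_nonneg ?_
      rw [hmm]; linarith
    have h3 : Real.log (1 / (ε / 3)) ≤ 3 * (1 / ε) := by
      have e : 1 / (ε / 3) = 3 * (1 / ε) := by field_simp
      rw [e]
      have := Real.log_le_sub_one_of_pos (show 0 < 3 * (1 / ε) by positivity)
      linarith
    have hinv : 1 ≤ 1 / ε := by rw [le_div_iff₀ hε]; linarith
    have e2 : 3 * (C₁ + 1) / ε = 3 * (C₁ + 1) * (1 / ε) := by ring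
    rw [e2]
    have h4 : C₁ * Real.log (1 / (ε / 3)) ≤ C₁ * (3 * (1 / ε)) :=
      mul_le_mul_of_nonneg_left h3 hC₁.le
    have h5 : (0 : ℝ) ≤ (18 * (r : ℝ) + C₁ + 1) * (1 / ε) := by positivity
    have h6 : (0 : ℝ) ≤ (18 * (r : ℝ) + 3 * C₁ * (C₁ + 1) + 3 * C₁ + 1) *
        Real.log ((2 * n : ℕ) : ℝ) := by positivity
    nlinarith
  · intro B hH hBc
    obtain ⟨Cc, hCc, hCc2⟩ := hF B hH hBc
    refine ⟨Cc, hCc, ?_⟩
    have h1 := hCc2 φ hφ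
    have h2 := hφ2 B hBc
    have h3 := (Complex.re_le_norm _).trans h2
    rw [Complex.sub_re] at h3
    have h4 : ((((2 * n : ℕ) : ℂ)) ^ 2 * expec Ψ 0 B).re =
        ((2 * n : ℕ) : ℝ) ^ 2 * (expec Ψ 0 B).re := by
      rw [show (((2 * n : ℕ) : ℂ)) ^ 2 = ((((2 * n : ℕ) : ℝ) ^ 2 : ℝ) : ℂ) by push_cast; ring,
        Complex.re_ofReal_mul]
    rw [h4] at h3
    have h5 : C₁ / (3 * (C₁ + 1) / ε) + ε / 3 ≤ 2 * ε / 3 := by
      have : C₁ / (3 * (C₁ + 1) / ε) ≤ ε / 3 := by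
        rw [div_div_eq_mul_div, div_le_div_iff₀ (by positivity) (by norm_num)]
        nlinarith
      linarith
    have hm2 : (0 : ℝ) ≤ ((2 * n : ℕ) : ℝ) ^ 2 := by positivity
    have h6 := mul_le_mul_of_nonneg_left h5 hm2
    have h7 : 12 * (r : ℝ) * n ≤ ((2 * n : ℕ) : ℝ) ^ 2 * (ε / 3) := by
      have e3 : 12 * (r : ℝ) * n = 6 * r * ((2 * n : ℕ) : ℝ) := by rw [hmm]; ring
      rw [e3]
      have hmn : (0 : ℝ) ≤ ((2 * n : ℕ) : ℝ) := Nat.cast_nonneg _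
      nlinarith
    nlinarith

/-- Every translation invariant state is approximated by a PEPS of bond dimension `exp (C/ε)`. -/
theorem asmA_box (hT : StmTherm) (hP : StmPipe) (d r : ℕ) (hd : 2 ≤ d)
    (hr : 0 < r) :
    ∃ C : ℝ, (r : ℝ) ≤ C ∧ ∀ ε : ℝ, 0 < ε → ε ≤ 1 → ∀ (L : ℕ) [NeZero L], C / ε ≤ L →
      ∀ Ψ : Conf d L → ℂ, nrm Ψ = 1 → TransInv Ψ →
      ∃ (D : ℕ) (A : Tensor d D), (D : ℝ) ≤ Real.exp (C / ε) ∧ GoodBox r A Ψ (C / ε ^ 4) ε := by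
  obtain ⟨c, hc1, hfin⟩ := fin_box hP d r hd hr
  obtain ⟨C₁, hC₁, hreach⟩ := reachA hT d r hd hr
  -- `m = 2 n` with `n = ⌈K / ε⌉`
  obtain ⟨K, hK⟩ : ∃ K : ℝ, K = 2 * c * C₁ + 2 * c + r := ⟨_, rfl⟩
  have hr1 : (1 : ℝ) ≤ r := by exact_mod_cast hr
  have hc0 : 0 < c := by linarith
  have hC₁0 : 0 < C₁ := by linarith
  have hcC : 0 < c * C₁ := by positivity
  have hK1 : 1 ≤ K := by rw [hK]; nlinarith
  obtain ⟨M, hM⟩ : ∃ M : ℝ, M = 2 * K + 2 := ⟨_, rfl⟩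
  have hM4 : 4 ≤ M := by rw [hM]; linarith
  obtain ⟨C, hCdef⟩ : ∃ C : ℝ, C = c * M ^ 4 + M + (c * M + 4 * (C₁ * (2 * c + M))) := ⟨_, rfl⟩
  have hC0 : 0 < C := by rw [hCdef]; positivity
  have hrC : (r : ℝ) ≤ C := by
    have h1 : (r : ℝ) ≤ M := by rw [hM, hK]; nlinarith
    have h2 : 0 ≤ c * M ^ 4 + (c * M + 4 * (C₁ * (2 * c + M))) := by positivity
    rw [hCdef]; linarith
  refine ⟨C, hrC, ?_⟩
  intro ε hε hε1 L _ hL Ψ hΨ hTI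
  have hTIe := transInv_expec Ψ hΨ hTI
  obtain ⟨n, hn⟩ : ∃ n : ℕ, n = ⌈K / ε⌉₊ := ⟨_, rfl⟩
  have hinv : 1 ≤ 1 / ε := by rw [le_div_iff₀ hε]; linarith
  have hKn : K / ε ≤ n := by rw [hn]; exact Nat.le_ceil _
  have hnK : (n : ℝ) ≤ K / ε + 1 := by
    rw [hn]; exact (Nat.ceil_lt_add_one (by positivity)).le
  have hmm : ((2 * n : ℕ) : ℝ) = 2 * (n : ℝ) := by push_cast; ring
  have hmM : ((2 * n : ℕ) : ℝ) ≤ M / ε := by
    rw [hmm, hM]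
    have e1 : K / ε = K * (1 / ε) := by ring
    have e2 : (2 * K + 2) / ε = 2 * K * (1 / ε) + 2 * (1 / ε) := by ring
    rw [e1] at hnK
    rw [e2]
    linarith
  have hn1 : (1 : ℝ) ≤ n := by
    refine le_trans ?_ hKn
    rw [le_div_iff₀ hε]; nlinarith
  have hn1' : 1 ≤ n := by exact_mod_cast hn1
  have : NeZero (2 * n) := ⟨by omega⟩
  have hL2 : 2 * n ≤ L := by
    have : ((2 * n : ℕ) : ℝ) ≤ L := by
      refine hmM.trans (le_trans ?_ hL)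
      refine div_le_div_of_nonneg_right ?_ hε.le
      rw [hCdef]
      have : 0 ≤ c * M ^ 4 + (c * M + 4 * (C₁ * (2 * c + M))) := by positivity
      linarith
    exact_mod_cast this
  have hlarge : K / ε ≤ ((2 * n : ℕ) : ℝ) := by rw [hmm]; linarith
  -- reach
  have hε' : 0 < ε / (2 * c) := by positivity
  have hε'1 : ε / (2 * c) ≤ 1 := by
    rw [div_le_one (by positivity)]; linarith
  have hc2 : C₁ / (ε / (2 * c)) ≤ ((2 * n : ℕ) : ℝ) := by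
    refine le_trans ?_ hlarge
    rw [div_div_eq_mul_div]
    refine div_le_div_of_nonneg_right ?_ hε.le
    rw [hK]; nlinarith
  obtain ⟨f, hf, hF⟩ := hreach n L hL2 Ψ hΨ hTIe (ε / (2 * c)) hε' hε'1 hc2
  have hc3 : 2 * c / ε ≤ ((2 * n : ℕ) : ℝ) := by
    refine le_trans ?_ hlarge
    refine div_le_div_of_nonneg_right ?_ hε.le
    rw [hK]; nlinarith
  have hrL : r ≤ L := by
    have h1 : (r : ℝ) ≤ ((2 * n : ℕ) : ℝ) := by
      refine le_trans ?_ hlarge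
      rw [le_div_iff₀ hε]
      have : (r : ℝ) * ε ≤ r := by nlinarith
      rw [hK]; nlinarith
    have h2 : r ≤ 2 * n := by exact_mod_cast h1
    omega
  obtain ⟨D, A, hD, hA⟩ := hfin ε hε hε1 (2 * n) f L hc3 hrL _ hf Ψ hΨ hF
  refine ⟨D, A, hD.trans (Real.exp_le_exp.2 ?_), ?_⟩
  · have hmpos : (0 : ℝ) < ((2 * n : ℕ) : ℝ) := by rw [hmm]; linarith
    have hlog : Real.log ((2 * n : ℕ) : ℝ) ≤ M / ε := by
      have := Real.log_le_sub_one_of_pos hmpos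
      linarith
    have e3 : 1 / (ε / (2 * c)) = 2 * c / ε := by rw [one_div_div]
    rw [e3]
    have h5 : c * Real.log ((2 * n : ℕ) : ℝ) ≤ c * (M / ε) :=
      mul_le_mul_of_nonneg_left hlog hc0.le
    have h6 : C₁ * (2 * c / ε + Real.log ((2 * n : ℕ) : ℝ)) ≤ C₁ * (2 * c / ε + M / ε) :=
      mul_le_mul_of_nonneg_left (by linarith) hC₁0.le
    have h7 : c * (M / ε) + 4 * (C₁ * (2 * c / ε + M / ε)) =
        (c * M + 4 * (C₁ * (2 * c + M))) / ε := by ring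
    have h8 : (c * M + 4 * (C₁ * (2 * c + M))) / ε ≤ C / ε := by
      refine div_le_div_of_nonneg_right ?_ hε.le
      rw [hCdef]
      have : 0 ≤ c * M ^ 4 + M := by positivity
      linarith
    linarith
  · intro L' _ hL'
    refine hA L' (le_trans ?_ hL')
    have h5 : ((2 * n : ℕ) : ℝ) ^ 4 ≤ (M / ε) ^ 4 := pow_le_pow_left₀ (Nat.cast_nonneg _) hmM 4
    have h6 : c * ((2 * n : ℕ) : ℝ) ^ 4 ≤ c * (M / ε) ^ 4 :=
      mul_le_mul_of_nonneg_left h5 hc0.le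
    have h7 : c * (M / ε) ^ 4 = (c * M ^ 4) / ε ^ 4 := by rw [div_pow]; ring
    rw [h7] at h6
    refine h6.trans ?_
    refine div_le_div_of_nonneg_right ?_ (by positivity)
    rw [hCdef]
    have : 0 ≤ M + (c * M + 4 * (C₁ * (2 * c + M))) := by positivity
    linarith

/-- The same for regions. -/
theorem asmA (hT : StmTherm) (hP : StmPipe) (d : ℕ) (hd : 2 ≤ d)
    (R : Finset (ℤ × ℤ)) :
    ∃ C : ℝ, 0 < C ∧ ∀ ε : ℝ, 0 < ε → ε ≤ 1 → ∀ (L : ℕ) [NeZero L], C / ε ≤ L →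
      ∀ Ψ : Conf d L → ℂ, nrm Ψ = 1 → TransInv Ψ →
      ∃ (D : ℕ) (A : Tensor d D), (D : ℝ) ≤ Real.exp (C / ε) ∧
        ∀ (L' : ℕ) [NeZero L'], C / ε ^ 4 ≤ L' →
          nrm (pepsX A L') ≠ 0 ∧ Close R Ψ (pepsX A L') ε := by
  obtain ⟨r, hr, hreg⟩ := region_of_box d R
  obtain ⟨C, hrC, hbox⟩ := asmA_box hT hP d r hd hr
  have hr1 : (1 : ℝ) ≤ r := by exact_mod_cast hr
  refine ⟨C, by linarith, ?_⟩
  intro ε hε hε1 L _ hL Ψ hΨ hTI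
  obtain ⟨D, A, hD, hA⟩ := hbox ε hε hε1 L hL Ψ hΨ hTI
  refine ⟨D, A, hD, ?_⟩
  have h1 : (r : ℝ) ≤ C / ε := by
    rw [le_div_iff₀ hε]; nlinarith
  have h2 : (r : ℝ) ≤ C / ε ^ 4 := by
    rw [le_div_iff₀ (by positivity)]
    have : ε ^ 4 ≤ 1 := pow_le_one₀ hε.le hε1
    nlinarith [pow_pos hε 4]
  exact hreg D L A Ψ (C / ε ^ 4) ε (by exact_mod_cast h1.trans hL) h2 hΨ
    (transInv_expec Ψ hΨ hTI) hA

/-- The reduced density matrices on `R` of the family `Ψ` form a Cauchy sequence. -/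
def Conv {d : ℕ} (R : Finset (ℤ × ℤ)) (Ψ : ∀ L : ℕ, Conf d L → ℂ) : Prop :=
  ∀ δ : ℝ, 0 < δ → ∃ L₂ : ℕ, ∀ (L L' : ℕ) [NeZero L] [NeZero L'], L₂ ≤ L → L₂ ≤ L' →
    Close R (Ψ L) (Ψ L') δ

/-- Convergent families of translation invariant vectors. -/
theorem famA (hT : StmTherm) (hP : StmPipe) (d : ℕ) (hd : 2 ≤ d)
    (R : Finset (ℤ × ℤ)) :
    ∃ C : ℝ, 0 < C ∧ ∀ Ψ : ∀ L : ℕ, Conf d L → ℂ,
      (∃ L₁ : ℕ, ∀ (L : ℕ) [NeZero L], L₁ ≤ L → nrm (Ψ L) = 1 ∧ TransInv (Ψ L)) → Conv R Ψ →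
      ∀ ε : ℝ, 0 < ε → ε ≤ 1 → ∃ (D : ℕ) (A : Tensor d D), (D : ℝ) ≤ Real.exp (C / ε) ∧
        ∃ L₃ : ℕ, ∀ (L : ℕ) [NeZero L], L₃ ≤ L →
          nrm (pepsX A L) ≠ 0 ∧ Close R (Ψ L) (pepsX A L) ε := by
  obtain ⟨C, hC0, hmain⟩ := asmA hT hP d hd R
  refine ⟨2 * C, by linarith, ?_⟩
  rintro Ψ ⟨L₁, hL₁⟩ hconv ε hε hε1
  obtain ⟨L₂, hL₂⟩ := hconv (ε / 2) (by linarith)
  obtain ⟨N, hN⟩ : ∃ N : ℕ, N = max (max L₁ L₂) ⌈C / (ε / 2)⌉₊ + 1 := ⟨_, rfl⟩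
  have hi : NeZero N := ⟨by omega⟩
  have hNC : C / (ε / 2) ≤ N := by
    refine (Nat.le_ceil _).trans ?_
    have : ⌈C / (ε / 2)⌉₊ ≤ N := by omega
    exact_mod_cast this
  obtain ⟨hn, hTI⟩ := hL₁ N (by omega)
  obtain ⟨D, A, hD, hA⟩ := hmain (ε / 2) (by linarith) (by linarith) N hNC (Ψ N) hn hTI
  refine ⟨D, A, ?_, max L₂ ⌈C / (ε / 2) ^ 4⌉₊, ?_⟩
  · refine hD.trans (Real.exp_le_exp.2 (le_of_eq ?_))
    rw [div_div_eq_mul_div]; ring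
  · intro L _ hL
    have h1 : C / (ε / 2) ^ 4 ≤ L := by
      refine (Nat.le_ceil _).trans ?_
      have : ⌈C / (ε / 2) ^ 4⌉₊ ≤ L := by omega
      exact_mod_cast this
    obtain ⟨h2, h3⟩ := hA L h1
    refine ⟨h2, ?_⟩
    have h4 := hL₂ L N (by omega) (by omega)
    have h5 := close_trans h4 h3
    exact close_mono h5 (by linarith)

/-- A Hermitian matrix in the real parametrization. -/
theorem herm_param {d q : ℕ} (h : BConf d q → BConf d q → ℂ) (hh : Herm h) :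
    ∃ X : BConf d q → BConf d q → ℝ, hermOf X = h := by
  refine ⟨fun σ τ => ((h σ τ).re + (h σ τ).im) / 2, ?_⟩
  funext σ τ
  have h1 := hh σ τ
  have hre : (h τ σ).re = (h σ τ).re := by rw [h1]; simp
  have him : (h τ σ).im = -(h σ τ).im := by rw [h1]; simp
  unfold hermOf
  apply Complex.ext
  · simp [hre, him]
    ring
  · simp [hre, him]
    ring

/-- The energy of a good tensor. -/
theorem energy_of_good {d q D N L : ℕ} [NeZero N] [NeZero L] (hd : 2 ≤ d) (hq : q ≤ L)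
    (A : Tensor d D) (h : BConf d q → BConf d q → ℂ) (hh : Herm h) (Ψ : Conf d N → ℂ) (T ε δ : ℝ)
    (hG : GoodBox q A Ψ T ε) (hT : T ≤ L)
    (hE : ∀ φ : Conf d L → ℂ, IsGround h L φ → (expec Ψ 0 h).re ≤ en h L φ / (L : ℝ) ^ 2 + δ) :
    ∀ φ : Conf d L → ℂ, nrm φ = 1 → en h L (pepsX A L) ≤
      (en h L φ + ((entrySum h + 1) * ε + δ) * (L : ℝ) ^ 2) * nrm (pepsX A L) := by
  intro φ hφ
  have hA := Pool.Agent.Y331.PE.t_EnergyA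
  have hGE := Pool.Agent.Y932.PE.groundExists
  have hPTI := Pool.Agent.Y328.PE.pepsMain
  obtain ⟨X, hX⟩ := herm_param h hh
  obtain ⟨Ψ', hΨ', -⟩ := hGE d q L (by omega) hq X
  rw [hX] at hΨ'
  have h1 := hE Ψ' hΨ'
  have h2 := hΨ'.2 φ hφ
  obtain ⟨hn, hcl⟩ := hG L hT
  have hc0 : 0 ≤ entrySum h :=
    Finset.sum_nonneg fun _ _ => Finset.sum_nonneg fun _ _ => norm_nonneg _
  obtain ⟨c, hc⟩ : ∃ c : ℝ, c = entrySum h + 1 := ⟨_, rfl⟩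
  have hc1 : 0 < c := by linarith
  have h3 := hcl _ (contr_inv d q h c hc1 (by linarith)) 0
  have hlin : ∀ {M : ℕ} [NeZero M] (Q : Conf d M → ℂ),
      expec Q 0 (fun σ τ => ((c⁻¹ : ℝ) : ℂ) * h σ τ) = ((c⁻¹ : ℝ) : ℂ) * expec Q 0 h := by
    intro M _ Q
    unfold expec
    rw [Finset.mul_sum]
    refine Finset.sum_congr rfl fun s _ => ?_
    rw [Finset.mul_sum]
    refine Finset.sum_congr rfl fun τ _ => ?_
    ring
  rw [hlin, hlin] at h3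
  have e3 : ((c⁻¹ : ℝ) : ℂ) * expec (pepsX A L) 0 h / (nrm (pepsX A L) : ℂ) -
      ((c⁻¹ : ℝ) : ℂ) * expec Ψ 0 h = ((c⁻¹ : ℝ) : ℂ) *
      (expec (pepsX A L) 0 h / (nrm (pepsX A L) : ℂ) - expec Ψ 0 h) := by ring
  rw [e3, norm_mul, Complex.norm_real, Real.norm_eq_abs, abs_of_pos (inv_pos.2 hc1),
    inv_mul_le_iff₀ hc1] at h3
  have e5 := (Complex.re_le_norm _).trans h3
  rw [Complex.sub_re, Complex.div_ofReal_re] at e5
  rw [hA.1 d q L h (pepsX A L) (fun v => hPTI d L _ A q v h)]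
  have e6 : (expec (pepsX A L) 0 h).re / nrm (pepsX A L) ≤
      en h L Ψ' / (L : ℝ) ^ 2 + (c * ε + δ) := by linarith
  rw [div_le_iff₀ hn] at e6
  have hL0 : L ≠ 0 := NeZero.ne L
  have hLp : (0 : ℝ) < (L : ℝ) ^ 2 := by positivity
  have e7 := mul_le_mul_of_nonneg_left e6 hLp.le
  have e8 : (L : ℝ) ^ 2 * ((en h L Ψ' / (L : ℝ) ^ 2 + (c * ε + δ)) * nrm (pepsX A L)) =
      (en h L Ψ' + (c * ε + δ) * (L : ℝ) ^ 2) * nrm (pepsX A L) := by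
    field_simp
  rw [e8] at e7
  refine e7.trans (mul_le_mul_of_nonneg_right ?_ hn.le)
  rw [← hc]
  linarith

/-- Ground energies: a tensor with energy per site within `η` of the ground energy per site, of bond
dimension `exp (C / η)`. -/
theorem enA (hT : StmTherm) (hP : StmPipe) (d q : ℕ) (hd : 2 ≤ d) (hq : 0 < q)
    (h : BConf d q → BConf d q → ℂ) (hh : Herm h) :
    ∃ C : ℝ, 0 < C ∧ ∀ η : ℝ, 0 < η → η ≤ 1 → ∃ (D : ℕ) (A : Tensor d D),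
      (D : ℝ) ≤ Real.exp (C / η) ∧ ∃ L₁ : ℕ, ∀ (L : ℕ) [NeZero L], L₁ ≤ L →
        nrm (pepsX A L) ≠ 0 ∧ ∀ φ : Conf d L → ℂ, nrm φ = 1 →
          en h L (pepsX A L) ≤ (en h L φ + η * (L : ℝ) ^ 2) * nrm (pepsX A L) := by
  have hEA := Pool.Agent.Y331.PE.t_EnergyA
  have hGE := Pool.Agent.Y932.PE.groundExists
  have hPTI := Pool.Agent.Y328.PE.pepsMain
  have hbox : ∀ {d : ℕ}, 2 ≤ d → ∀ {r : ℕ}, 0 < r → ∀ {ε : ℝ}, 0 < ε → ε ≤ 1 →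
    ∃ (L₀ K : ℕ) (A : Fin K → Tensor d (bond d r ε)),
      ∀ (L : ℕ) [NeZero L], L₀ ≤ L → ∀ Ψ : Conf d L → ℂ, nrm Ψ = 1 →
      (∀ (v : Site L) (B : BConf d r → BConf d r → ℂ), expec Ψ v B = expec Ψ 0 B) →
      ∃ k, ∀ (L' : ℕ) [NeZero L'], L₀ ≤ L' → 0 < nrm (pepsX (A k) L') ∧
        ∀ (u : Site L) (v : Site L') (B : BConf d r → BConf d r → ℂ), Contr B →
          ‖expec (pepsX (A k) L') v B / (nrm (pepsX (A k) L') : ℂ) - expec Ψ u B‖ ≤ ε :=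
    fun {_} hd {_} hr {_} hε hε1 => universal_box Pool.Agent.Y978.PE.collapse
      Pool.Agent.Y562.PE.orth Pool.Agent.Y297.PE.factor Pool.Agent.Y65.PE.weights
      Pool.Agent.Y328.PE.shiftMain Pool.Agent.Y794.PE.exist Pool.Agent.Y794.PE.nonzero
      Pool.Agent.Y65.PE.bound Pool.Agent.Y65.PE.purify Pool.Agent.Y585.PE.net
      Pool.Agent.Y328.PE.pepsMain hd hr hε hε1
  obtain ⟨X, hX⟩ := herm_param h hh
  obtain ⟨C, hrC, hmain⟩ := asmA_box hT hP d q hd hq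
  have hq1 : (1 : ℝ) ≤ q := by exact_mod_cast hq
  have hC0 : 0 < C := by linarith
  obtain ⟨c, hc⟩ : ∃ c : ℝ, c = entrySum h + 1 := ⟨_, rfl⟩
  have hc0 : 0 ≤ entrySum h :=
    Finset.sum_nonneg fun _ _ => Finset.sum_nonneg fun _ _ => norm_nonneg _
  have hc1 : 1 ≤ c := by linarith
  refine ⟨2 * c * C, by positivity, ?_⟩
  intro η hη hη1
  obtain ⟨ε, hε⟩ : ∃ ε : ℝ, ε = η / (2 * c) := ⟨_, rfl⟩
  have hε0 : 0 < ε := by rw [hε]; positivity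
  have hε1 : ε ≤ 1 := by
    rw [hε, div_le_one (by positivity)]; linarith
  obtain ⟨L₀, hL₀⟩ := gd_cauchy hEA hGE hPTI hbox contr_inv hd hq X (η / 2) (by linarith)
  obtain ⟨N, hN⟩ : ∃ N : ℕ, N = max (max L₀ q) ⌈C / ε⌉₊ + 1 := ⟨_, rfl⟩
  have hi : NeZero N := ⟨by omega⟩
  have hNC : C / ε ≤ N := by
    refine (Nat.le_ceil _).trans ?_
    have : ⌈C / ε⌉₊ ≤ N := by omega
    exact_mod_cast this
  obtain ⟨Ψ, hΨ, hTI⟩ := hGE d q N (by omega) (by omega) X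
  obtain ⟨D, A, hD, hA⟩ := hmain ε hε0 hε1 N hNC Ψ hΨ.1 hTI
  refine ⟨D, A, ?_, max (max L₀ q) ⌈C / ε ^ 4⌉₊, ?_⟩
  · refine hD.trans (Real.exp_le_exp.2 (le_of_eq ?_))
    rw [hε, div_div_eq_mul_div]; ring
  · intro L _ hL
    have h1 : C / ε ^ 4 ≤ L := by
      refine (Nat.le_ceil _).trans ?_
      have : ⌈C / ε ^ 4⌉₊ ≤ L := by omega
      exact_mod_cast this
    refine ⟨(hA L h1).1.ne', ?_⟩
    have hTIe := transInv_expec Ψ hΨ.1 hTI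
    have key := energy_of_good hd (by omega : q ≤ L) A h hh Ψ (C / ε ^ 4) ε (η / 2) hA h1 (by
      intro φ hφ
      have h2 := hL₀ L N (by omega) (by omega)
      rw [← hX] at hφ
      rw [gd_eq X Ψ hΨ, gd_eq X φ hφ, hX, hEA.1 d q N h Ψ (fun v => hTIe q v h)] at h2
      have hNp : (0 : ℝ) < (N : ℝ) ^ 2 := by
        have : N ≠ 0 := by omega
        positivity
      rw [mul_div_cancel_left₀ _ hNp.ne'] at h2
      exact h2)
    intro φ hφ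
    refine (key φ hφ).trans (le_of_eq ?_)
    rw [← hc]
    have e : c * ε + η / 2 = η := by rw [hε]; field_simp; ring
    rw [e]

end Pool.Agent.N658.TP.A2
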