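import Pool.Agent.N658.TP.Stm
import Pool.Agent.Y738.PE.AE3
import Pool.Agent.Y738.PE.Glob3

/-! # From `Reach` to one translation invariant tensor, region version -/

open scoped BigOperators ComplexConjugate Classical

noncomputable section

namespace Pool.Agent.N658.TP

open Pool.Agent.Y738.PE

/-- bound on the bond dimension -/
theorem bondH_le (d r : ℕ) (ε : ℝ) (hε : 0 < ε) (m f : ℕ) (X : ℝ)
    (hf : (f : ℝ) ≤ Real.exp X) (hm : 1 / ε ≤ m) (hm2 : 2 ≤ m) :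
    (bondH d r m f ε : ℝ) ≤
      Real.exp ((20 + 2 * ((nT d r : ℕ) : ℝ)) * Real.log m + 4 * X) := by
  have hm0 : (2 : ℝ) ≤ m := by exact_mod_cast hm2
  have hmp : (0 : ℝ) < m := by linarith
  have hlog2 : 1 / 2 ≤ Real.log m := by
    have h3 : Real.log 2 ≤ Real.log m := Real.log_le_log (by norm_num) hm0
    have := Real.log_two_gt_d9
    linarith
  have hexp : Real.exp (Real.log m) = m := Real.exp_log hmp
  -- the ceiling
  have hc1 : ((⌈24 / ε⌉₊ : ℕ) : ℝ) ≤ 25 * m := by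
    have h1 := (Nat.ceil_lt_add_one (a := 24 / ε) (by positivity)).le
    have h2 : 24 / ε = 24 * (1 / ε) := by ring
    rw [h2] at h1
    have h3 : ((⌈24 / ε⌉₊ : ℕ) : ℝ) ≤ 24 * (1 / ε) + 1 := by rw [h2]; exact h1
    linarith
  have hA : (2 * (((m : ℝ) + 1) * ((⌈24 / ε⌉₊ : ℕ) : ℝ) + 2)) ≤ 80 * (m : ℝ) ^ 2 := by
    have h4 : ((m : ℝ) + 1) * ((⌈24 / ε⌉₊ : ℕ) : ℝ) ≤ (3 / 2 * m) * (25 * m) :=
      mul_le_mul (by linarith) hc1 (Nat.cast_nonneg _) (by linarith)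
    nlinarith
  have h80 : (80 : ℝ) ≤ (m : ℝ) ^ 7 := by
    calc (80 : ℝ) ≤ 2 ^ 7 := by norm_num
      _ ≤ (m : ℝ) ^ 7 := pow_le_pow_left₀ (by norm_num) hm0 7
  have hA2 : (2 * (((m : ℝ) + 1) * ((⌈24 / ε⌉₊ : ℕ) : ℝ) + 2)) ≤ (m : ℝ) ^ 9 := by
    refine hA.trans ?_
    calc 80 * (m : ℝ) ^ 2 ≤ (m : ℝ) ^ 7 * (m : ℝ) ^ 2 :=
          mul_le_mul_of_nonneg_right h80 (by positivity)
      _ = (m : ℝ) ^ 9 := by ring
  have hT : ((nT d r : ℕ) : ℝ) ≤ (m : ℝ) ^ (nT d r) := by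
    calc ((nT d r : ℕ) : ℝ) ≤ (2 : ℝ) ^ (nT d r) := by exact_mod_cast (Nat.lt_two_pow_self).le
      _ ≤ (m : ℝ) ^ (nT d r) := pow_le_pow_left₀ (by norm_num) hm0 _
  have hf0 : (0 : ℝ) ≤ f := Nat.cast_nonneg f
  unfold bondH
  push_cast
  have e1 : Real.exp ((20 + 2 * ((nT d r : ℕ) : ℝ)) * Real.log m + 4 * X) =
      ((m : ℝ) ^ 20 * (m : ℝ) ^ (2 * nT d r)) * Real.exp X ^ 4 := by
    rw [Real.exp_add, add_mul, Real.exp_add]
    have a1 : Real.exp (20 * Real.log m) = (m : ℝ) ^ 20 := by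
      rw [show (20 : ℝ) * Real.log m = ((20 : ℕ) : ℝ) * Real.log m by norm_num, Real.exp_nat_mul,
        hexp]
    have a2 : Real.exp (2 * ((nT d r : ℕ) : ℝ) * Real.log m) = (m : ℝ) ^ (2 * nT d r) := by
      rw [show 2 * ((nT d r : ℕ) : ℝ) * Real.log m = ((2 * nT d r : ℕ) : ℝ) * Real.log m by
        push_cast; ring, Real.exp_nat_mul, hexp]
    have a3 : Real.exp (4 * X) = Real.exp X ^ 4 := by
      rw [← Real.exp_nat_mul]; norm_num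
    rw [a1, a2, a3]
  rw [e1]
  have h5 : (2 * (((m : ℝ) + 1) * ((⌈24 / ε⌉₊ : ℕ) : ℝ) + 2)) ^ 2 ≤ (m : ℝ) ^ 20 := by
    calc (2 * (((m : ℝ) + 1) * ((⌈24 / ε⌉₊ : ℕ) : ℝ) + 2)) ^ 2 ≤ ((m : ℝ) ^ 9) ^ 2 :=
          pow_le_pow_left₀ (by positivity) hA2 2
      _ = (m : ℝ) ^ 18 := by ring
      _ ≤ (m : ℝ) ^ 20 := pow_le_pow_right₀ (by linarith) (by norm_num)
  have h6 : ((nT d r : ℕ) : ℝ) ≤ (m : ℝ) ^ (2 * nT d r) :=
    hT.trans (pow_le_pow_right₀ (by linarith) (by omega))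
  have h7 : (f : ℝ) ^ 4 ≤ Real.exp X ^ 4 := pow_le_pow_left₀ hf0 hf 4
  calc (2 * (((m : ℝ) + 1) * ((⌈24 / ε⌉₊ : ℕ) : ℝ) + 2)) ^ 2 * (((nT d r : ℕ) : ℝ) * (f : ℝ) ^ 4)
      ≤ (m : ℝ) ^ 20 * ((m : ℝ) ^ (2 * nT d r) * Real.exp X ^ 4) := by
        refine mul_le_mul h5 (mul_le_mul h6 h7 (by positivity) (by positivity)) (by positivity)
          (by positivity)
    _ = _ := by ring

/-- The conclusion for boxes: the PEPS of the tensor `A` has on all tori of side at least `T` the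
same expectations as `Ψ` up to `ε`. -/
def GoodBox {d D L : ℕ} [NeZero L] (r : ℕ) (A : Tensor d D) (Ψ : Conf d L → ℂ) (T ε : ℝ) : Prop :=
  ∀ (L' : ℕ) [NeZero L'], T ≤ L' → 0 < nrm (pepsX A L') ∧
    ∀ (B : BConf d r → BConf d r → ℂ), Contr B → ∀ v : Site L',
      ‖expec (pepsX A L') v B / (nrm (pepsX A L') : ℂ) - expec Ψ 0 B‖ ≤ ε

/-- From `Reach` to a translation invariant PEPS for boxes. -/
theorem fin_box (hP : StmPipe) (d r : ℕ) (hd : 2 ≤ d) (hr : 0 < r) :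
    ∃ c : ℝ, 1 ≤ c ∧ ∀ ε : ℝ, 0 < ε → ε ≤ 1 → ∀ (m f L : ℕ) [NeZero m]
      [NeZero L], 2 * c / ε ≤ m → r ≤ L → ∀ X : ℝ, (f : ℝ) ≤ Real.exp X →
      ∀ Ψ : Conf d L → ℂ, nrm Ψ = 1 → Reach d r m f (fun B => expec Ψ 0 B) (ε / (2 * c)) →
      ∃ (D : ℕ) (A : Tensor d D), (D : ℝ) ≤ Real.exp (c * Real.log m + 4 * X) ∧
        GoodBox r A Ψ (c * (m : ℝ) ^ 4) ε := by
  obtain ⟨c₀, hc₀, hpipe⟩ := hP d r hd hr
  obtain ⟨c, hc⟩ : ∃ c : ℝ, c = c₀ + (20 + 2 * ((nT d r : ℕ) : ℝ)) + (10300 + r) := ⟨_, rfl⟩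
  have hnT0 : (0 : ℝ) ≤ ((nT d r : ℕ) : ℝ) := Nat.cast_nonneg _
  have hr0 : (0 : ℝ) ≤ (r : ℝ) := Nat.cast_nonneg _
  have hr1 : (1 : ℝ) ≤ (r : ℝ) := by exact_mod_cast hr
  have hc1 : 1 ≤ c := by linarith
  refine ⟨c, hc1, ?_⟩
  intro ε hε hε1 m f L _ _ hm hrL X hf Ψ hΨ hreach
  have hcp : 0 < c := by linarith
  have hε2 : 0 < ε / 2 := by linarith
  have hm' : 2 * c ≤ ε * m := by
    rw [div_le_iff₀ hε] at hm; linarith
  have hmp0 : (0 : ℝ) ≤ m := Nat.cast_nonneg m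
  have hmbig : 2 * c ≤ m := by nlinarith
  have hm2 : 2 ≤ m := by
    have : (2 : ℝ) ≤ m := by linarith
    exact_mod_cast this
  have hm2' : (2 : ℝ) ≤ m := by exact_mod_cast hm2
  have hminv : 1 / (ε / 2) ≤ m := by
    rw [div_le_iff₀ hε2]
    nlinarith
  have hc₀m : c₀ / (ε / 2) ≤ m := by
    rw [div_le_iff₀ hε2]
    nlinarith
  obtain ⟨A, hA⟩ := hpipe (ε / 2) hε2 (by linarith) m f L hc₀m hrL Ψ hΨ (ε / (2 * c))
    (by positivity) hreach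
  refine ⟨bondH d r m f (ε / 2), A, ?_, ?_⟩
  · refine (bondH_le d r (ε / 2) hε2 m f X hf hminv hm2).trans ?_
    refine Real.exp_le_exp.2 ?_
    have hlog : 0 ≤ Real.log m := Real.log_nonneg (by linarith)
    have : (20 + 2 * ((nT d r : ℕ) : ℝ)) * Real.log m ≤ c * Real.log m :=
      mul_le_mul_of_nonneg_right (by linarith) hlog
    linarith
  · intro L' _ hL'
    have hthr : r + ((m + 1) * ⌈24 / (ε / 2)⌉₊ + 3) ^ 2 ≤ L' := by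
      have h1 := (Nat.ceil_lt_add_one (a := 24 / (ε / 2)) (by positivity)).le
      have h2 : 24 / (ε / 2) ≤ 24 * m := by
        rw [div_le_iff₀ hε2]
        have : 1 ≤ (m : ℝ) * (ε / 2) := by nlinarith
        nlinarith
      have h3 : ((⌈24 / (ε / 2)⌉₊ : ℕ) : ℝ) ≤ 25 * m := by linarith
      have h4 : (((m : ℝ) + 1) * ((⌈24 / (ε / 2)⌉₊ : ℕ) : ℝ) + 3) ≤ 60 * (m : ℝ) ^ 2 := by
        have h5 : ((m : ℝ) + 1) * ((⌈24 / (ε / 2)⌉₊ : ℕ) : ℝ) ≤ (2 * m) * (25 * m) :=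
          mul_le_mul (by linarith) h3 (Nat.cast_nonneg _) (by linarith)
        nlinarith
      have h5 : (((m : ℝ) + 1) * ((⌈24 / (ε / 2)⌉₊ : ℕ) : ℝ) + 3) ^ 2 ≤ 3600 * (m : ℝ) ^ 4 := by
        calc (((m : ℝ) + 1) * ((⌈24 / (ε / 2)⌉₊ : ℕ) : ℝ) + 3) ^ 2 ≤ (60 * (m : ℝ) ^ 2) ^ 2 :=
              pow_le_pow_left₀ (by positivity) h4 2
          _ = 3600 * (m : ℝ) ^ 4 := by ring
      have h6 : (1 : ℝ) ≤ (m : ℝ) ^ 4 := one_le_pow₀ (by linarith)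
      have h7 : ((r + ((m + 1) * ⌈24 / (ε / 2)⌉₊ + 3) ^ 2 : ℕ) : ℝ) ≤ L' := by
        refine le_trans ?_ hL'
        push_cast
        have h8 : (r : ℝ) ≤ r * (m : ℝ) ^ 4 := by nlinarith
        have h9 : ((r : ℝ) + 3600) * (m : ℝ) ^ 4 ≤ c * (m : ℝ) ^ 4 :=
          mul_le_mul_of_nonneg_right (by linarith) (by positivity)
        linarith
      exact_mod_cast h7
    obtain ⟨h1, h2⟩ := hA L' hthr
    refine ⟨h1, ?_⟩
    intro B hB' v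
    have h3 := h2 B hB' v
    have h4 : ε / 2 + c₀ * (ε / (2 * c)) ≤ ε := by
      have : c₀ * (ε / (2 * c)) ≤ ε / 2 := by
        rw [mul_div_assoc', div_le_div_iff₀ (by positivity) (by norm_num)]
        have h10 : 0 ≤ (c - c₀) * ε := mul_nonneg (by linarith) hε.le
        linarith
      linarith
    exact h3.trans h4

/-- From boxes to regions. -/
theorem region_of_box (d : ℕ) (R : Finset (ℤ × ℤ)) : ∃ r : ℕ, 0 < r ∧
    ∀ (D L : ℕ) [NeZero L] (A : Tensor d D) (Ψ : Conf d L → ℂ) (T ε : ℝ), r ≤ L → (r : ℝ) ≤ T →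
      nrm Ψ = 1 →
      (∀ (r : ℕ) (v : Site L) (B : BConf d r → BConf d r → ℂ), expec Ψ v B = expec Ψ 0 B) →
      GoodBox r A Ψ T ε → ∀ (L' : ℕ) [NeZero L'], T ≤ L' →
        nrm (pepsX A L') ≠ 0 ∧ Close R Ψ (pepsX A L') ε := by
  obtain ⟨r, a, hr, hB⟩ := Pool.Agent.Y70.PE.region d R
  refine ⟨r, hr, ?_⟩
  intro D L _ A Ψ T ε hrL hrT hΨ hTI hG L' _ hL'
  obtain ⟨h1, h2⟩ := hG L' hL'
  refine ⟨h1.ne', ?_⟩
  intro u v B hBc
  obtain ⟨B', hB', hBB⟩ := hB B hBc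
  have hrL' : r ≤ L' := by
    have := hrT.trans hL'
    exact_mod_cast this
  rw [hBB L hrL Ψ u, hBB L' hrL' (pepsX A L') v, hΨ, hTI, norm_sub_rev]
  have h3 := h2 B' hB' (v.1 + (a.1 : ZMod L'), v.2 + (a.2 : ZMod L'))
  rw [Complex.ofReal_one, div_one]
  exact h3

end Pool.Agent.N658.TP
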