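import Pool.Agent.N163.TP.Hull
import Pool.Agent.N163.TP.Therm
import Pool.Agent.N674.TP.Low
import Pool.Agent.N79.TP.Frob
import Pool.Agent.N455.TP.Ent
import Pool.Agent.N134.TP.Col
import Pool.Agent.N645.TP.Mix
import Pool.Agent.N9.TP.MixSum
import Pool.Agent.N814.TP.MixExp
import Pool.Agent.N650.TP.Avg
import Pool.Agent.N563.TP.Pipe
import Pool.Agent.N658.TP.AsmA2

/-! # The inputs of the assembly -/

namespace Pool.Agent.N658.TP

theorem therm' : StmTherm :=
  Pool.Agent.N163.TP.therm (Pool.Agent.N674.TP.low Pool.Agent.N79.TP.frob Pool.Agent.N455.TP.ent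
    Pool.Agent.N134.TP.Col.col)

theorem pipe' : StmPipe :=
  Pool.Agent.N563.TP.pipe (Pool.Agent.N645.TP.mix Pool.Agent.N163.TP.hull)
    Pool.Agent.N9.TP.MixSum.mixSum Pool.Agent.N814.TP.mixExp Pool.Agent.N650.TP.avgMain

end Pool.Agent.N658.TP
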