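import Pool.Agent.N776.TP.GT
import Pool.Agent.N607.TP.Log
import Pool.Agent.N692.TP.Pb
import Pool.Agent.N340.TP.Conj
import Pool.Agent.N767.TP.SliceNorm
import Pool.Agent.N756.TP.NetAdj
import Pool.Agent.N645.TP.Slice
import Pool.Agent.N87.TP.Seed
import Pool.Agent.N134.TP.Ref
import Pool.Agent.N346.TP.Rdm
import Pool.Agent.N26.TP.CmpB
import Pool.Agent.N79.TP.ReachB
import Pool.Agent.N286.TP.Ent1
import Pool.Agent.N896.TP.Ent2

/-! # The inputs of the assembly of part B -/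

namespace Pool.Agent.N658.TP

theorem tel' : StmTel :=
  Pool.Agent.N692.TP.tel Pool.Agent.N776.TP.gt Pool.Agent.N692.TP.pbMain Pool.Agent.N607.TP.logMono

theorem slice' : StmSlice :=
  Pool.Agent.N645.TP.slice (Pool.Agent.N767.TP.sliceNorm Pool.Agent.N340.TP.conj)
    Pool.Agent.N756.TP.NetAdj.netAdj

theorem reachB' : StmReachB :=
  Pool.Agent.N79.TP.reachB tel' slice' Pool.Agent.N87.TP.seed Pool.Agent.N134.TP.Ref.ref
    Pool.Agent.N346.TP.Rdm.rdmMain Pool.Agent.N26.TP.cmpB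

theorem ent1' : StmEnt1 := Pool.Agent.N286.TP.ent1 reachB'

theorem ent2' : StmEnt2 := Pool.Agent.N896.TP.ent2 ent1'

end Pool.Agent.N658.TP
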