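import Pool.Agent.N658.TP.Stm4

/-! # Final assembly of part D: hypotheses in terms of the spectrum (statements) -/

open scoped BigOperators ComplexConjugate Classical InnerProductSpace Matrix ComplexOrder
open scoped Matrix.Norms.L2Operator

noncomputable section

namespace Pool.Agent.N658.TP.Sp

open Pool.Agent.Y738.PE Pool.Agent.N658.TP

/-- The matrix of `H_L`. -/
def hamM {d q : ℕ} (h : BConf d q → BConf d q → ℂ) (L : ℕ) [NeZero L] :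
    Matrix (Conf d L) (Conf d L) ℂ :=
  Matrix.of fun s t => ham h L (fun s' => if s' = t then 1 else 0) s

/-- The smallest eigenvalue of `H_L`. -/
def gs {d q : ℕ} (h : BConf d q → BConf d q → ℂ) (L : ℕ) [NeZero L] : ℝ :=
  if hH : (hamM h L).IsHermitian then ⨅ i, hH.eigenvalues i else 0

/-- The partition function `Tr exp (-β (H_L - E_0))`. -/
def part {d q : ℕ} (h : BConf d q → BConf d q → ℂ) (L : ℕ) [NeZero L] (β : ℝ) : ℝ :=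
  if hH : (hamM h L).IsHermitian then ∑ i, Real.exp (-(β * (hH.eigenvalues i - gs h L))) else 0

/-- The number of eigenvalues of `H_L` (with multiplicity) that are at most `E_0 + M`. -/
def cnt {d q : ℕ} (h : BConf d q → BConf d q → ℂ) (L : ℕ) [NeZero L] (M : ℕ) : ℕ :=
  if hH : (hamM h L).IsHermitian then
    (Finset.univ.filter fun i => hH.eigenvalues i ≤ gs h L + M).card else 0

/-- F1. The partition function in terms of the eigenvalues. -/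
def StmFreeOf : Prop := ∀ (d R' : ℕ), 0 < d → ∀ h : Pool.Agent.TH235.PP.BoxOp d (R' + 1),
  h.IsHermitian → ∀ (L : ℕ) [NeZero L], R' + 1 ≤ L → ∀ β κ : ℝ,
  part (fun x y : BConf d (R' + 1) => h x y) L β ≤ Real.exp (κ * (L : ℝ) ^ 2) → FreeLe h L β κ

/-- F2. The partition function when there are few eigenvalues. -/
def StmPartCnt : Prop := ∀ (d q L : ℕ) [NeZero L] (h : BConf d q → BConf d q → ℂ) (c : ℝ), 0 ≤ c →
  (∀ M : ℕ, (cnt h L M : ℝ) ≤ (L : ℝ) ^ (c * (M + 1))) → ∀ β : ℝ, c * Real.log L + 1 ≤ β →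
  part h L β ≤ 2 * (L : ℝ) ^ (2 * c)

/-- F3. The spectral condition. -/
def StmFree4 : Prop := ∀ (d R' : ℕ), 2 ≤ d → ∀ h : Pool.Agent.TH235.PP.BoxOp d (R' + 1),
  h.IsHermitian → ∀ (R : Finset (ℤ × ℤ)) (c : ℝ), 0 ≤ c →
  (∃ m₀ : ℕ, ∀ (m : ℕ) [NeZero m], m₀ ≤ m → ∀ M : ℕ,
    (cnt (fun x y : BConf d (R' + 1) => h x y) m M : ℝ) ≤ (m : ℝ) ^ (c * (M + 1))) →
  ∃ C : ℝ, 0 < C ∧ ∀ ε : ℝ, 0 < ε → ε ≤ 1 →
  ∃ L₀ : ℕ, ∀ (L : ℕ) [NeZero L], L₀ ≤ L → ∀ Ψ : Conf d L → ℂ,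
    IsGround (fun x y : BConf d (R' + 1) => h x y) L Ψ → TransInv Ψ →
    ∃ (D : ℕ) (A : Tensor d D),
      (D : ℝ) ≤ Real.exp (C * Real.log (2 / ε) ^ 2) ∧
      ∀ (L' : ℕ) [NeZero L'], C * (1 / ε) ^ 8 ≤ L' →
        nrm (pepsX A L') ≠ 0 ∧ Close R Ψ (pepsX A L') ε

/-- F4. From every member of a convergent family to the whole family. -/
def StmFam : Prop := ∀ (d : ℕ) (R : Finset (ℤ × ℤ)) (Ψ : ∀ L : ℕ, Conf d L → ℂ), A2.Conv R Ψ →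
  ∀ g ε : ℝ, 0 < ε →
  (∃ L₀ : ℕ, ∀ (L : ℕ) [NeZero L], L₀ ≤ L → ∃ (D : ℕ) (A : Tensor d D), (D : ℝ) ≤ g ∧
    ∃ M₀ : ℕ, ∀ (L' : ℕ) [NeZero L'], M₀ ≤ L' →
      nrm (pepsX A L') ≠ 0 ∧ Close R (Ψ L) (pepsX A L') (ε / 2)) →
  ∃ (D : ℕ) (A : Tensor d D), (D : ℝ) ≤ g ∧ ∃ L₃ : ℕ, ∀ (L : ℕ) [NeZero L], L₃ ≤ L →
    nrm (pepsX A L) ≠ 0 ∧ Close R (Ψ L) (pepsX A L) ε

end Pool.Agent.N658.TP.Sp
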