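import Pool.Agent.N658.TP.In2
import Pool.Agent.N658.TP.Stm5
import Pool.Agent.N519.TP.LogM
import Pool.Agent.N441.TP.TrM
import Pool.Agent.N160.TP.RefF
import Pool.Agent.N152.TP.CmpF
import Pool.Agent.N712.TP.ReachF
import Pool.Agent.N711.TP.EnMul
import Pool.Agent.N395.TP.Free1
import Pool.Agent.N490.TP.Free23
import Pool.Agent.N8.TP.FreeDown
import Pool.Agent.N232.TP.FreeOf
import Pool.Agent.N75.TP.PartCnt
import Pool.Agent.N73.TP.Free4

/-! # The inputs of the assembly of part D -/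

namespace Pool.Agent.N658.TP

theorem logM' : StmLogM := Pool.Agent.N519.TP.LogM.logM Pool.Agent.N607.TP.logMono

theorem trM' : StmTrM := Pool.Agent.N441.TP.trM Pool.Agent.N692.TP.pbMain

theorem refF' : StmRefF :=
  Pool.Agent.N160.TP.RefF.refF Pool.Agent.N607.TP.logMono logM' trM'

theorem reachF' : StmReachF := Pool.Agent.N712.TP.reachF tel' slice' refF' Pool.Agent.N152.TP.cmpF

theorem free1' : StmFree1 := Pool.Agent.N395.TP.free1 reachF' Pool.Agent.N711.TP.EnMul.enMul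

theorem freeDown' : StmFreeDown := Pool.Agent.N8.TP.FreeDown.freeDown

theorem free2' : StmFree2 := Pool.Agent.N490.TP.free2 free1' freeDown'

theorem free3' : StmFree3 := Pool.Agent.N490.TP.free3 free1' freeDown'

end Pool.Agent.N658.TP

namespace Pool.Agent.N658.TP.Sp

open Pool.Agent.Y738.PE Pool.Agent.N658.TP

theorem fam : StmFam := by
  intro d R Ψ hconv g ε hε h
  obtain ⟨L₀, hL₀⟩ := h
  obtain ⟨L₂, hL₂⟩ := hconv (ε / 2) (by linarith)
  obtain ⟨N, hN⟩ : ∃ N : ℕ, N = max L₀ L₂ + 1 := ⟨_, rfl⟩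
  have hi : NeZero N := ⟨by omega⟩
  obtain ⟨D, A, hD, M₀, hA⟩ := hL₀ N (by omega)
  refine ⟨D, A, hD, max L₂ M₀, ?_⟩
  intro L _ hL
  obtain ⟨h2, h3⟩ := hA L (by omega)
  refine ⟨h2, ?_⟩
  have h4 := hL₂ L N (by omega) (by omega)
  exact close_mono (close_trans h4 h3) (by linarith)

theorem freeOf' : StmFreeOf := Pool.Agent.N232.TP.freeOf

theorem free4' : StmFree4 := Pool.Agent.N73.TP.free4 free1' freeOf' Pool.Agent.N75.TP.partCnt

end Pool.Agent.N658.TP.Sp
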