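import Pool.Agent.N658.TP.Stm

/-! # Part B: bond dimension in terms of the entropy of blocks. Definitions and statements -/

open scoped BigOperators ComplexConjugate Classical InnerProductSpace Matrix ComplexOrder
open scoped Matrix.Norms.L2Operator

noncomputable section

namespace Pool.Agent.N658.TP

open Pool.Agent.Y738.PE

/-- The quadratic form `⟨v, A v⟩` (real part). -/
def qf {n : Type} [Fintype n] (A : Matrix n n ℂ) (v : n → ℂ) : ℝ :=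
  (Pool.Agent.TH235.PP.ip v (A *ᵥ v)).re

/-- Squared norm of a vector (the same as `nrm`). -/
abbrev nsq {n : Type} [Fintype n] (v : n → ℂ) : ℝ := Pool.Agent.TH235.PP.normSq v

/-! ## Operator inequalities -/

/-- G1. Golden–Thompson for Hermitian matrices. -/
def StmGT : Prop := ∀ (n : Type) [Fintype n] [DecidableEq n] (X Y : Matrix n n ℂ),
  X.IsHermitian → Y.IsHermitian →
  (NormedSpace.exp (X + Y)).trace.re ≤ (NormedSpace.exp X * NormedSpace.exp Y).trace.re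

/-- G2. Peierls–Bogoliubov. -/
def StmPB : Prop := ∀ (n : Type) [Fintype n] [DecidableEq n] (X : Matrix n n ℂ),
  X.IsHermitian → ∀ φ : n → ℂ, nsq φ = 1 →
  Real.exp (qf X φ) ≤ qf (NormedSpace.exp X) φ ∧
    qf (NormedSpace.exp X) φ ≤ (NormedSpace.exp X).trace.re

/-- G3. The logarithm is operator monotone. -/
def StmLog : Prop := ∀ (n : Type) [Fintype n] [DecidableEq n] (S K : Matrix n n ℂ),
  S.IsHermitian → K.IsHermitian → ∀ c : ℝ, 0 < c →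
  (∀ φ : n → ℂ, c * qf (NormedSpace.exp (-K)) φ ≤ qf S φ) →
  ∃ Λ : Matrix n n ℂ, Λ.IsHermitian ∧ NormedSpace.exp Λ = S ∧
    ∀ φ : n → ℂ, nsq φ = 1 → Real.log c - qf K φ ≤ qf Λ φ

/-- G4. Telescoping: `T ≈ exp (-τ H)` multiplicatively, `S = Tᴴ T`, `ρ₀ = exp Γ = ∑ q_s |e_s⟩⟨e_s|` a
state. Some vector `S ^ j e_s`, `j ≤ J`, has energy at most that of `Φ`, up to the relative entropy
`-⟨Φ, Γ Φ⟩` divided by the inverse temperature `4 J τ`. -/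
def StmTel : Prop := ∀ (n : Type) [Fintype n] [DecidableEq n] (H T Γ : Matrix n n ℂ) (τ δ : ℝ)
  (J : ℕ) (ι : Type) [Fintype ι] (q : ι → ℝ) (e : ι → n → ℂ),
  H.IsHermitian → Γ.IsHermitian → 0 < τ → 0 ≤ δ → δ ≤ 1 / 2 → 0 < J →
  ‖T * NormedSpace.exp ((τ : ℂ) • H) - 1‖ ≤ δ → (∀ s, 0 ≤ q s) →
  NormedSpace.exp Γ = ∑ s, (q s : ℂ) • Matrix.vecMulVec (e s) (star (e s)) →
  (NormedSpace.exp Γ).trace = 1 → ∀ Φ : n → ℂ, nsq Φ = 1 →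
  ∃ j : ℕ, j ≤ J ∧ ∃ s : ι, 0 < nsq ((Tᴴ * T) ^ j *ᵥ e s) ∧
    qf H ((Tᴴ * T) ^ j *ᵥ e s) ≤
      (qf H Φ + (-qf Γ Φ) / (4 * J * τ) + 4 * δ / τ) * nsq ((Tᴴ * T) ^ j *ᵥ e s)

/-! ## Slices: PEPS operators multiplicatively close to `exp (-τ H)` -/

/-- S1. Imaginary time evolution of local terms. -/
def StmConj : Prop := ∀ (n : Type) [Fintype n] [DecidableEq n] (N : ℕ) (adj : Fin N → Fin N → Prop)
  (K : ℕ), 1 ≤ K → (∀ b, (Finset.univ.filter fun b' => adj b b').card ≤ K) →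
  ∀ (h : Fin N → Matrix n n ℂ), (∀ b b', ¬ adj b b' → h b * h b' = h b' * h b) →
  ∀ J : ℝ, 0 < J → (∀ b, ‖h b‖ ≤ J) → ∀ s : ℝ, |s| ≤ 1 / (16 * K * J) → ∀ b,
    ‖NormedSpace.exp ((s : ℂ) • ∑ b', h b') * h b * NormedSpace.exp (-(s : ℂ) • ∑ b', h b')‖ ≤ 2 * J

open Pool.Agent.TH235 in
/-- S2. The truncated expansion is multiplicatively close to the exponential. -/
def StmSliceNorm : Prop := ∀ (n : Type) [Fintype n] [DecidableEq n] [Nonempty n] (N : ℕ)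
  (adj : Fin N → Fin N → Prop) (K : ℕ), (∀ b b', adj b b' → adj b' b) → (∀ b, ¬ adj b b) → 1 ≤ K →
  (∀ b, (Finset.univ.filter fun b' => adj b b').card ≤ K) →
  ∀ (h : Fin N → Matrix n n ℂ), (∑ b, h b).IsHermitian →
  (∀ b b', ¬ adj b b' → h b * h b' = h b' * h b) → ∀ J : ℝ, 0 < J → (∀ b, ‖h b‖ ≤ J) →
  ∀ τ : ℝ, 0 < τ → τ ≤ 1 / (16 * K * J) → ∀ (q r : ℕ) (y0 : ℝ), y0 = 2 * (τ / PQ.tm q) * J →
  y0 ≤ 1 / 80 → N * y0 ≤ 1 / 4 → 2 * PQ.tm q * (N * y0) ^ 2 ≤ 1 →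
  N * Real.exp (100 * (K + 1) ^ 2 * (1 + PQ.tm q * y0) - r / (10 * K * (K + 1) ^ 2)) ≤ 1 →
  ‖PQ.KA adj q (fun b => (-((τ / PQ.tm q : ℝ) : ℂ)) • h b) r *
      NormedSpace.exp ((τ : ℂ) • ∑ b, h b) - 1‖ ≤
    6 * (N * Real.exp (100 * (K + 1) ^ 2 * (1 + PQ.tm q * y0) - r / (10 * K * (K + 1) ^ 2))) +
      5 * (PQ.tm q * (N * y0) ^ 2)

open Pool.Agent.TH235 in
/-- S3. The adjoint of the truncated expansion maps PEPS to PEPS. -/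
def StmNetAdj : Prop := ∀ (d R' L : ℕ) [NeZero L], R' + 1 ≤ L → ∀ (K : Type) [Fintype K]
  (A0 : PP.Site L → Fin d → K → K → K → K → ℂ) (c : ℂ) (h : PP.BoxOp d (R' + 1)) (N : ℕ)
  (e : Fin N ≃ PP.Site L) (q r : ℕ),
  ∃ A : PP.Site L → Fin d →
      (K × (Fin (2 * R' + 1) × Fin (2 * R' + 1) → PQ.LabT d (R' + 1) q r)) →
      (K × (Fin (2 * R' + 1) × Fin (2 * R' + 1) → PQ.LabT d (R' + 1) q r)) →
      (K × (Fin (2 * R' + 1) × Fin (2 * R' + 1) → PQ.LabT d (R' + 1) q r)) →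
      (K × (Fin (2 * R' + 1) × Fin (2 * R' + 1) → PQ.LabT d (R' + 1) q r)) → ℂ,
    ((PQ.KA (PQ.adjR R' e) q (fun b => c • PP.term h (e b)) r)ᴴ).mulVec (PP.contract A0) =
      PP.contract A

open Pool.Agent.TH235 in
/-- S4. Slices. -/
def StmSlice : Prop := ∀ (d R' : ℕ) (J : ℝ), 2 ≤ d → ∃ τ : ℝ, 0 < τ ∧ ∃ C : ℝ, 0 < C ∧
  ∀ (L : ℕ) [NeZero L], 2 ≤ L → R' + 1 ≤ L → ∃ W : ℕ, (W : ℝ) ≤ Real.exp (C * Real.log L) ∧
  ∀ h : PP.BoxOp d (R' + 1), h.IsHermitian → PP.nJ h ≤ J → ∃ T : PP.TorOp d L,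
    ‖T * NormedSpace.exp ((τ : ℂ) • PP.ham h L) - 1‖ ≤ 1 / 2 ∧
    ∀ (D : ℕ) (ψ : (PP.Site L → Fin d) → ℂ), PP.IsPEPS D ψ →
      PP.IsPEPS (D * W) (T *ᵥ ψ) ∧ PP.IsPEPS (D * W) (Tᴴ *ᵥ ψ)

/-! ## Products of block vectors -/

/-- The corner of the tile `t`. -/
def crn {b k : ℕ} (t : Fin k × Fin k) : Site (b * k) :=
  (((b * t.1 : ℕ) : ZMod (b * k)), ((b * t.2 : ℕ) : ZMod (b * k)))

/-- The product of block vectors on the tiles. -/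
def prodV {d b k : ℕ} (g : Fin k × Fin k → BConf d b → ℂ) (s : Conf d (b * k)) : ℂ :=
  ∏ t : Fin k × Fin k, g t (box b s (crn t))

/-- S5. Products of block vectors are PEPS. -/
def StmSeed : Prop := ∀ (d b k : ℕ) [NeZero (b * k)], 0 < b → 0 < k →
  ∀ g : Fin k × Fin k → BConf d b → ℂ, ∃ C : Site (b * k) → Tensor d (d ^ (b * b)),
    pepsN C = prodV g

/-- The von Neumann entropy of a Hermitian matrix. -/
def vnE {S : Type} [Fintype S] [DecidableEq S] (ρ : Matrix S S ℂ) : ℝ :=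
  if h : ρ.IsHermitian then ∑ i, Real.negMulLog (h.eigenvalues i) else 0

/-- The reduced density matrix of `Ψ` on the `b × b` box at the origin. -/
def rdm {d L : ℕ} [NeZero L] (Ψ : Conf d L → ℂ) (b : ℕ) :
    Matrix (BConf d b) (BConf d b) ℂ :=
  Matrix.of fun σ τ => expec Ψ 0 (fun x y => if x = τ ∧ y = σ then (1 : ℂ) else 0)

/-- S6. The product of the reduced density matrices of the tiles as reference state. -/
def StmRef : Prop := ∀ (d b k : ℕ) [NeZero (b * k)], 2 ≤ d → 0 < b → 0 < k →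
  ∀ (ρ : Matrix (BConf d b) (BConf d b) ℂ), ρ.PosSemidef → ρ.trace = 1 →
  ∀ η : ℝ, 0 < η → η ≤ 1 / 2 → ∀ Φ : Conf d (b * k) → ℂ, nrm Φ = 1 →
  (∀ (t : Fin k × Fin k) (B : BConf d b → BConf d b → ℂ),
    expec Φ (crn t) B = ∑ x, ∑ y, B x y * ρ y x) →
  ∃ (q : (Fin k × Fin k → BConf d b) → ℝ)
    (g : (Fin k × Fin k → BConf d b) → Fin k × Fin k → BConf d b → ℂ)
    (Γ : Matrix (Conf d (b * k)) (Conf d (b * k)) ℂ),
    Γ.IsHermitian ∧ (∀ s, 0 ≤ q s) ∧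
    NormedSpace.exp Γ = ∑ s, (q s : ℂ) • Matrix.vecMulVec (prodV (g s)) (star (prodV (g s))) ∧
    (NormedSpace.exp Γ).trace = 1 ∧ -qf Γ Φ ≤ (k : ℝ) ^ 2 * (vnE ρ + 2 * η)

/-- S7. The reduced density matrices are states and determine the expectations. -/
def StmRdm : Prop := ∀ (d L b : ℕ) [NeZero L], b ≤ L → ∀ Ψ : Conf d L → ℂ, nrm Ψ = 1 →
  (rdm Ψ b).PosSemidef ∧ (rdm Ψ b).trace = 1 ∧ 0 ≤ vnE (rdm Ψ b) ∧
  vnE (rdm Ψ b) ≤ (b : ℝ) ^ 2 * Real.log d ∧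
  ∀ B : BConf d b → BConf d b → ℂ, expec Ψ 0 B = ∑ x, ∑ y, B x y * rdm Ψ b y x

/-- S8. Comparison with tiles. -/
def StmCmpB : Prop := ∀ (d r b k L : ℕ) [NeZero L] [NeZero (b * (2 * k))], 0 < r → 0 < b → 0 < k →
  r ≤ b * k → b * (2 * k) ≤ L → ∀ (Ψ : Conf d L → ℂ), nrm Ψ = 1 →
  (∀ (r : ℕ) (v : Site L) (B : BConf d r → BConf d r → ℂ), expec Ψ v B = expec Ψ 0 B) →
  ∃ φ : Conf d (b * (2 * k)) → ℂ, nrm φ = 1 ∧
    (∀ B : BConf d r → BConf d r → ℂ, Contr B →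
      ‖enS φ B - ((b * (2 * k) : ℕ) : ℂ) ^ 2 * expec Ψ 0 B‖ ≤ 12 * (r : ℝ) * (b * k : ℕ)) ∧
    ∀ (t : Fin (2 * k) × Fin (2 * k)) (B : BConf d b → BConf d b → ℂ),
      expec φ (crn t) B = expec Ψ 0 B

/-- S9. `Reach` with a bond dimension controlled by the entropy of the blocks. -/
def StmReachB : Prop := ∀ (d r : ℕ), 2 ≤ d → 0 < r → ∃ C : ℝ, 0 < C ∧
  ∀ (b k L : ℕ) [NeZero L] [NeZero (b * (2 * k))], 0 < b → 0 < k → b * (2 * k) ≤ L →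
  ∀ ε : ℝ, 0 < ε → ε ≤ 1 → C / ε ≤ ((b * (2 * k) : ℕ) : ℝ) → ∀ Ψ : Conf d L → ℂ, nrm Ψ = 1 →
  (∀ (r : ℕ) (v : Site L) (B : BConf d r → BConf d r → ℂ), expec Ψ v B = expec Ψ 0 B) →
  ∃ f : ℕ, (f : ℝ) ≤ Real.exp (C * ((b : ℝ) ^ 2 + (1 + vnE (rdm Ψ b) / ((b : ℝ) ^ 2 * ε)) *
      Real.log ((b * (2 * k) : ℕ) : ℝ))) ∧
    Reach d r (b * (2 * k)) f (fun B => expec Ψ 0 B) (C * ε)

end Pool.Agent.N658.TP
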