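import Pool.Agent.N658.TP.Stm2

/-! # Part D: bond dimension in terms of the free energy. Statements -/

open scoped BigOperators ComplexConjugate Classical InnerProductSpace Matrix ComplexOrder
open scoped Matrix.Norms.L2Operator

noncomputable section

namespace Pool.Agent.N658.TP

open Pool.Agent.Y738.PE

/-- F1. The logarithm is operator monotone (second form). -/
def StmLogM : Prop := ∀ (n : Type) [Fintype n] [DecidableEq n] (X Y : Matrix n n ℂ),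
  X.IsHermitian → Y.IsHermitian →
  (∀ φ : n → ℂ, qf (NormedSpace.exp X) φ ≤ qf (NormedSpace.exp Y) φ) →
  ∀ φ : n → ℂ, qf X φ ≤ qf Y φ

/-- F2. `Tr exp` is monotone. -/
def StmTrM : Prop := ∀ (n : Type) [Fintype n] [DecidableEq n] (X Y : Matrix n n ℂ),
  X.IsHermitian → Y.IsHermitian → (∀ φ : n → ℂ, qf X φ ≤ qf Y φ) →
  (NormedSpace.exp X).trace.re ≤ (NormedSpace.exp Y).trace.re

/-- F3. The normalised `2 j`-th power of `S = Tᴴ T ≈ exp (-2 τ H)` as reference state. -/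
def StmRefF : Prop := ∀ (n : Type) [Fintype n] [DecidableEq n] [Nonempty n] (H T : Matrix n n ℂ)
  (τ : ℝ) (j : ℕ), H.IsHermitian → 0 < τ → ‖T * NormedSpace.exp ((τ : ℂ) • H) - 1‖ ≤ 1 / 2 →
  ∃ (q : ℝ) (Γ : Matrix n n ℂ), 0 ≤ q ∧ Γ.IsHermitian ∧
    NormedSpace.exp Γ = ∑ s : n, (q : ℂ) • Matrix.vecMulVec ((Tᴴ * T) ^ j *ᵥ Pi.single s (1 : ℂ))
      (star ((Tᴴ * T) ^ j *ᵥ Pi.single s (1 : ℂ))) ∧
    (NormedSpace.exp Γ).trace = 1 ∧ ∀ φ : n → ℂ, nsq φ = 1 →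
      -qf Γ φ ≤ 4 * j * τ * qf H φ +
        Real.log (NormedSpace.exp (((-(4 * j * τ) : ℝ) : ℂ) • H)).trace.re + 16 * j

/-- F4. Comparison with one vector for all box sizes. -/
def StmCmpF : Prop := ∀ (d n L : ℕ) [NeZero L] [NeZero (2 * n)], 0 < n → 2 * n ≤ L →
  ∀ (Ψ : Conf d L → ℂ), nrm Ψ = 1 →
  (∀ (r : ℕ) (v : Site L) (B : BConf d r → BConf d r → ℂ), expec Ψ v B = expec Ψ 0 B) →
  ∃ φ : Conf d (2 * n) → ℂ, nrm φ = 1 ∧ ∀ r : ℕ, 0 < r → r ≤ n →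
    ∀ B : BConf d r → BConf d r → ℂ, Contr B →
      ‖enS φ B - ((2 * n : ℕ) : ℂ) ^ 2 * expec Ψ 0 B‖ ≤ 12 * (r : ℝ) * n

/-- F5. `Reach` with a bond dimension controlled by the free energy of an interaction `h` at inverse
temperature `β`. -/
def StmReachF : Prop := ∀ (d r R' : ℕ) (J : ℝ), 2 ≤ d → 0 < r → ∃ C : ℝ, 0 < C ∧
  ∀ (n L : ℕ) [NeZero L] [NeZero (2 * n)], 2 * n ≤ L →
  ∀ ε : ℝ, 0 < ε → ε ≤ 1 → ∀ β : ℝ, 0 ≤ β → C * (1 + β) / ε ≤ ((2 * n : ℕ) : ℝ) →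
  ∀ Ψ : Conf d L → ℂ, nrm Ψ = 1 →
  (∀ (r : ℕ) (v : Site L) (B : BConf d r → BConf d r → ℂ), expec Ψ v B = expec Ψ 0 B) →
  ∀ h : Pool.Agent.TH235.PP.BoxOp d (R' + 1), h.IsHermitian → Pool.Agent.TH235.PP.nJ h ≤ J →
  ∀ κ : ℝ, 0 ≤ κ →
  Real.log (NormedSpace.exp (((-β : ℝ) : ℂ) • Pool.Agent.TH235.PP.ham h (2 * n))).trace.re +
    β * (((2 * n : ℕ) : ℝ) ^ 2 * (expec Ψ 0 (fun x y => h x y)).re) ≤ κ * ((2 * n : ℕ) : ℝ) ^ 2 →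
  ∃ f : ℕ, (f : ℝ) ≤ Real.exp (C * (1 + β + κ / ε) * Real.log ((2 * n : ℕ) : ℝ)) ∧
    Reach d r (2 * n) f (fun B => expec Ψ 0 B) (C * ε)

end Pool.Agent.N658.TP
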