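import Pool.Agent.N658.TP.Stm3
import Pool.Agent.N658.TP.In

/-! # Final assemblies of parts B and D: statements -/

open scoped BigOperators ComplexConjugate Classical InnerProductSpace Matrix ComplexOrder
open scoped Matrix.Norms.L2Operator

noncomputable section

namespace Pool.Agent.N658.TP

open Pool.Agent.Y738.PE

/-- H1. Bond dimension in terms of the entropy of a block. -/
def StmEnt1 : Prop := ∀ (d : ℕ), 2 ≤ d → ∀ R : Finset (ℤ × ℤ), ∃ C : ℝ, 0 < C ∧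
  ∀ ε : ℝ, 0 < ε → ε ≤ 1 → ∀ b : ℕ, 1 ≤ b → ∀ (L : ℕ) [NeZero L], C * b / ε ≤ L →
  ∀ Ψ : Conf d L → ℂ, nrm Ψ = 1 → TransInv Ψ →
  ∃ (D : ℕ) (A : Tensor d D),
    (D : ℝ) ≤ Real.exp (C * ((b : ℝ) ^ 2 + (1 + vnE (rdm Ψ b) / ((b : ℝ) ^ 2 * ε)) *
      Real.log (2 * b / ε))) ∧
    ∀ (L' : ℕ) [NeZero L'], C * (b / ε) ^ 4 ≤ L' →
      nrm (pepsX A L') ≠ 0 ∧ Close R Ψ (pepsX A L') ε

/-- H2. Families whose blocks have entropy at most `a b ^ α`. -/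
def StmEnt2 : Prop := ∀ (d : ℕ), 2 ≤ d → ∀ (R : Finset (ℤ × ℤ)) (a α : ℝ), 0 ≤ a → 0 ≤ α → α ≤ 2 →
  ∃ C : ℝ, 0 < C ∧ ∀ Ψ : ∀ L : ℕ, Conf d L → ℂ,
  (∃ L₁ : ℕ, ∀ (L : ℕ) [NeZero L], L₁ ≤ L → nrm (Ψ L) = 1 ∧ TransInv (Ψ L)) →
  A2.Conv R Ψ →
  (∀ b : ℕ, 1 ≤ b → ∃ L₂ : ℕ, ∀ (L : ℕ) [NeZero L], L₂ ≤ L →
    vnE (rdm (Ψ L) b) ≤ a * (b : ℝ) ^ α) →
  ∀ ε : ℝ, 0 < ε → ε ≤ 1 → ∃ (D : ℕ) (A : Tensor d D),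
    (D : ℝ) ≤ Real.exp (C * ε ^ (-(2 / (4 - α))) * Real.log (2 / ε)) ∧
    ∃ L₃ : ℕ, ∀ (L : ℕ) [NeZero L], L₃ ≤ L →
      nrm (pepsX A L) ≠ 0 ∧ Close R (Ψ L) (pepsX A L) ε

/-- The entropy-like quantity `log Tr exp (-β H_m) + β ⟨φ, H_m φ⟩` is at most `κ m²` for some unit
vector `φ`, that is `log Tr exp (-β (H_m - E_0)) ≤ κ m²`. -/
def FreeLe {d R' : ℕ} (h : Pool.Agent.TH235.PP.BoxOp d (R' + 1)) (m : ℕ) [NeZero m] (β κ : ℝ) :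
    Prop :=
  ∃ φ : Conf d m → ℂ, nrm φ = 1 ∧
    Real.log (NormedSpace.exp (((-β : ℝ) : ℂ) • Pool.Agent.TH235.PP.ham h m)).trace.re +
      β * en (fun x y : BConf d (R' + 1) => h x y) m φ ≤ κ * (m : ℝ) ^ 2

/-- K1. Energies on multiples of a torus. -/
def StmEnMul : Prop := ∀ (d q : ℕ), 2 ≤ d → 0 < q → ∀ h : BConf d q → BConf d q → ℂ, Herm h →
  ∃ C : ℝ, 0 < C ∧ ∀ (m j : ℕ) [NeZero m] [NeZero (m * j)], q ≤ m → ∀ φ : Conf d m → ℂ, nrm φ = 1 →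
    ∃ ψ : Conf d (m * j) → ℂ, nrm ψ = 1 ∧ en h (m * j) ψ ≤ (j : ℝ) ^ 2 * (en h m φ + C * m)

/-- K2. The bound on the free energy for one size gives it for divisors. -/
def StmFreeDown : Prop := ∀ (d R' : ℕ), 2 ≤ d → ∀ h : Pool.Agent.TH235.PP.BoxOp d (R' + 1),
  h.IsHermitian → ∃ C : ℝ, 0 < C ∧ ∀ (n j : ℕ) [NeZero (2 * n)] [NeZero (2 * n * j)],
    R' + 1 ≤ n → ∀ β κ : ℝ, 0 ≤ β → FreeLe h (2 * n * j) β κ →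
    FreeLe h (2 * n) β (κ + C * β / (2 * n : ℕ))

/-- K3. Bond dimension in terms of the free energy. -/
def StmFree1 : Prop := ∀ (d R' : ℕ), 2 ≤ d → ∀ h : Pool.Agent.TH235.PP.BoxOp d (R' + 1),
  h.IsHermitian → ∀ R : Finset (ℤ × ℤ), ∃ C : ℝ, 0 < C ∧ ∀ ε : ℝ, 0 < ε → ε ≤ 1 →
  ∀ β : ℝ, 0 ≤ β → ∀ (n : ℕ) [NeZero (2 * n)], C * (1 + β) / ε ≤ ((2 * n : ℕ) : ℝ) →
  ∀ κ : ℝ, 0 ≤ κ → FreeLe h (2 * n) β κ →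
  ∃ L₀ : ℕ, ∀ (L : ℕ) [NeZero L], L₀ ≤ L → ∀ Ψ : Conf d L → ℂ,
    IsGround (fun x y : BConf d (R' + 1) => h x y) L Ψ → TransInv Ψ →
    ∃ (D : ℕ) (A : Tensor d D),
      (D : ℝ) ≤ Real.exp (C * (1 + β + κ / ε) * Real.log ((2 * n : ℕ) : ℝ)) ∧
      ∀ (L' : ℕ) [NeZero L'], C * ((2 * n : ℕ) : ℝ) ^ 4 ≤ L' →
        nrm (pepsX A L') ≠ 0 ∧ Close R Ψ (pepsX A L') ε

/-- K4. The thermodynamic condition: power law. -/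
def StmFree2 : Prop := ∀ (d R' : ℕ), 2 ≤ d → ∀ h : Pool.Agent.TH235.PP.BoxOp d (R' + 1),
  h.IsHermitian → ∀ (R : Finset (ℤ × ℤ)) (a α : ℝ), 0 ≤ a → 0 < α →
  (∀ β : ℝ, 1 ≤ β → ∃ m₀ : ℕ, ∀ (m : ℕ) [NeZero m], m₀ ≤ m → FreeLe h m β (a * β ^ (-α))) →
  ∃ C : ℝ, 0 < C ∧ ∀ ε : ℝ, 0 < ε → ε ≤ 1 →
  ∃ L₀ : ℕ, ∀ (L : ℕ) [NeZero L], L₀ ≤ L → ∀ Ψ : Conf d L → ℂ,
    IsGround (fun x y : BConf d (R' + 1) => h x y) L Ψ → TransInv Ψ →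
    ∃ (D : ℕ) (A : Tensor d D),
      (D : ℝ) ≤ Real.exp (C * ε ^ (-(1 / (1 + α))) * Real.log (2 / ε)) ∧
      ∀ (L' : ℕ) [NeZero L'], C * (1 / ε) ^ 8 ≤ L' →
        nrm (pepsX A L') ≠ 0 ∧ Close R Ψ (pepsX A L') ε

/-- K5. The thermodynamic condition: exponential law. -/
def StmFree3 : Prop := ∀ (d R' : ℕ), 2 ≤ d → ∀ h : Pool.Agent.TH235.PP.BoxOp d (R' + 1),
  h.IsHermitian → ∀ (R : Finset (ℤ × ℤ)) (a c : ℝ), 0 ≤ a → 0 < c →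
  (∀ β : ℝ, 1 ≤ β → ∃ m₀ : ℕ, ∀ (m : ℕ) [NeZero m], m₀ ≤ m → FreeLe h m β (a * Real.exp (-(c * β)))) →
  ∃ C : ℝ, 0 < C ∧ ∀ ε : ℝ, 0 < ε → ε ≤ 1 →
  ∃ L₀ : ℕ, ∀ (L : ℕ) [NeZero L], L₀ ≤ L → ∀ Ψ : Conf d L → ℂ,
    IsGround (fun x y : BConf d (R' + 1) => h x y) L Ψ → TransInv Ψ →
    ∃ (D : ℕ) (A : Tensor d D),
      (D : ℝ) ≤ Real.exp (C * Real.log (2 / ε) ^ 2) ∧
      ∀ (L' : ℕ) [NeZero L'], C * (1 / ε) ^ 8 ≤ L' →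
        nrm (pepsX A L') ≠ 0 ∧ Close R Ψ (pepsX A L') ε

end Pool.Agent.N658.TP
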